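import Mathlib
import Pool.Agent.Lib.MP_ca2859_nt.FF.Stm

/-!
# ASML: the local assembly
-/

open Polynomial WithZero IsDedekindDomain NumberField
open Pool.Agent.Lib.MP_ca2859_nt Pool.Agent.Lib.MP_ca2859_nt.GR

namespace Pool.Agent.Lib.MP_ca2859_nt.FF

private lemma ASML_exists_pair {α : Type*} [DecidableEq α] {s : Finset α} (h : 2 ≤ s.card) :
    ∃ a ∈ s, ∃ b ∈ s, a ≠ b := by
  obtain ⟨a, ha, b, hb, hab⟩ := Finset.one_lt_card.1 (show 1 < s.card by omega)
  exact ⟨a, ha, b, hb, hab⟩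

private lemma ASML_arith (E o Sm X Y : ℤ) (g b m k : ℕ) (hE : 0 < E)
    (h : E * X ≤ E * ((2 * g + 1) * (g + 3)) + (4 * g + 3) ^ 2 * (E * (4 * g * o) +
      8 * g * (2 * g + 1) * ((m : ℤ) * (E * (Sm + k * o)))) + E * Y)
    (hb : (b : ℤ) = (4 * g + 3) ^ 2 * (8 * g * (2 * g + 1)) * m) :
    X ≤ (2 * g + 1) * (g + 3) + (((4 * g + 3) ^ 2 * (4 * g) + b * k) * o + Y) + b * Sm := by
  refine le_of_mul_le_mul_left (h.trans (le_of_eq ?_)) hE
  rw [hb]
  ring

theorem piece_ASML (hGAP : S_GAP) : S_ASML := by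
  intro K _ _ L _ _ _ g hg f hf hfd v w hvw a ha α hα hfα 𝒯 hT d hd
  have := hvw
  set E : ℕ := Ideal.ramificationIdx' v.asIdeal w.asIdeal with hE
  have hE0 : 0 < E := Nat.pos_of_ne_zero
    (Ideal.IsDedekindDomain.ramificationIdx'_ne_zero_of_liesOver w.asIdeal v.ne_bot)
  have h2nn : 0 ≤ ord (v.valuation K) (2 : K) := by
    have := natCast_le_one (v.valuation K) 2
    exact ord_nonneg (by exact_mod_cast this)
  obtain ⟨o, ho⟩ := Int.eq_ofNat_of_zero_le h2nn
  set Sg : ℕ := ∑ T ∈ 𝒯, d T with hSg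
  have hle : ∀ T ∈ 𝒯, d T ≤ Sg := fun T hTT => Finset.single_le_sum (fun _ _ => Nat.zero_le _) hTT
  have h1 := disc_le_cross g hg f hf hfd v w a ha α hα hfα
    ((2 * g - 1) * (E * (Sg + (4 * g + 8) * o))) (by
      intro i j k l hij hik hil hjk hjl hkl
      set M' : ℤ := ord (w.valuation L) ((α i - α k) * (α j - α l)) -
        ord (w.valuation L) ((α i - α j) * (α k - α l)) with hM'
      by_cases hM0 : M' ≤ 0
      · have : (0 : ℤ) ≤ (((2 * g - 1) * (E * (Sg + (4 * g + 8) * o)) : ℕ) : ℤ) :=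
          Int.natCast_nonneg _
        linarith
      push Not at hM0
      obtain ⟨S, hiS, hkS, hjS, hlS, hS⟩ := hGAP L (w.valuation L) (2 * g + 2) α hα i j k l hij hik
        hil hjk hjl hkl M' hM0 (by rw [hM']; ring)
      obtain ⟨T, hTT, hT1, hT2⟩ := hT S
        (by
          have : ({i, k} : Finset (Fin (2 * g + 2))).card ≤ S.card :=
            Finset.card_le_card (by
              intro x hx
              rw [Finset.mem_insert, Finset.mem_singleton] at hx
              rcases hx with rfl | rfl <;> assumption)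
          rwa [Finset.card_pair hik] at this)
        (by
          have : ({j, l} : Finset (Fin (2 * g + 2))).card ≤ Sᶜ.card :=
            Finset.card_le_card (by
              intro x hx
              rw [Finset.mem_insert, Finset.mem_singleton] at hx
              rcases hx with rfl | rfl <;> rw [Finset.mem_compl] <;> assumption)
          rwa [Finset.card_pair hjl] at this)
      obtain ⟨i', hi', k', hk', hik'⟩ := ASML_exists_pair hT1
      obtain ⟨j', hj', l', hl', hjl'⟩ := ASML_exists_pair hT2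
      rw [Finset.mem_inter] at hi' hk'
      rw [Finset.mem_sdiff] at hj' hl'
      have hne : ∀ x y, x ∈ S → y ∉ S → x ≠ y := by
        rintro x y hx hy rfl
        exact hy hx
      have h2 := hS i' hi'.2 k' hk'.2 hik' j' hj'.2 l' hl'.2 hjl'
      have h3 := hd T hTT i' hi'.1 j' hj'.1 k' hk'.1 l' hl'.1 (hne _ _ hi'.2 hj'.2) hik'
        (hne _ _ hi'.2 hl'.2) (hne _ _ hk'.2 hj'.2).symm hjl' (hne _ _ hk'.2 hl'.2)
      set A := ord (w.valuation L) ((α i' - α k') * (α j' - α l'))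
      set B := ord (w.valuation L) ((α i' - α j') * (α k' - α l'))
      rw [ho] at h3
      have h4 : (d T : ℤ) ≤ Sg := by exact_mod_cast hle T hTT
      have h5 : (E : ℤ) * (d T + (4 * g + 8) * o) ≤ E * (Sg + (4 * g + 8) * o) :=
        mul_le_mul_of_nonneg_left (by linarith) (Int.natCast_nonneg _)
      have h6 : ((2 * g + 2 : ℕ) : ℤ) - 3 = ((2 * g - 1 : ℕ) : ℤ) := by omega
      have h7 : (0 : ℤ) ≤ E * (Sg + (4 * g + 8) * o) := by positivity
      have h8 : A - B ≤ E * (Sg + (4 * g + 8) * o) := by linarith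
      have h9 : M' ≤ ((2 * g - 1 : ℕ) : ℤ) * (E * (Sg + (4 * g + 8) * o)) := by
        rw [h6] at h2
        exact h2.trans (mul_le_mul_of_nonneg_left h8 (Int.natCast_nonneg _))
      have h10 : (((2 * g - 1) * (E * (Sg + (4 * g + 8) * o)) : ℕ) : ℤ) =
          ((2 * g - 1 : ℕ) : ℤ) * (E * (Sg + (4 * g + 8) * o)) := by
        push_cast
        ring
      rw [h10]
      linarith)
  have hcst : ((cst g : ℕ) : K) ≠ 0 := by exact_mod_cast (cst_pos g hg).ne'
  have h2 : ord (v.valuation K) ((cF g : ℕ) : K) =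
      (((4 * g + 3) ^ 2 * (4 * g) + (bF g : ℤ) * ((4 * g + 8 : ℕ) : ℤ)) * (o : ℤ) +
        ord (v.valuation K) ((cst g : ℕ) : K)) := by
    rw [cF, Nat.cast_mul, ord_mul (by
      push_cast
      exact pow_ne_zero _ (by norm_num)) hcst, Nat.cast_pow, Nat.cast_ofNat, ord_pow, ho]
    push_cast
    ring
  rw [h2]
  have h3 : (∑ T ∈ 𝒯, (d T : ℤ)) = (Sg : ℤ) := by
    rw [hSg]
    push_cast
    rfl
  rw [h3]
  refine ASML_arith (E : ℤ) o Sg (discExp g f v : ℤ) (ord (v.valuation K) ((cst g : ℕ) : K)) g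
    (bF g) (2 * g - 1) (4 * g + 8) (by exact_mod_cast hE0) ?_ ?_
  · rw [ho] at h1
    refine h1.trans (le_of_eq ?_)
    push_cast
    ring
  · rw [bF]
    push_cast
    ring

end Pool.Agent.Lib.MP_ca2859_nt.FF
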