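import Pool.Agent.Lib.MP_ca2859_nt.FF.Stm

set_option autoImplicit false

/-!
Piece COMB: a union of at most four blocks sees the splitting.
-/

namespace Pool.Agent.Lib.MP_ca2859_nt.FF

/-- the set `J` of blocks is as required (`s b`, `c b`: numbers of elements of the block `b` in the
two sides). -/
private def CGd {ι : Type} (B : Finset ι) (s c : ι → ℕ) (D : ℕ) (J : Finset ι) : Prop :=
  J ⊆ B ∧ J.card ≤ 4 ∧ 2 ≤ ∑ b ∈ J, s b ∧ 2 ≤ ∑ b ∈ J, c b ∧
    (∑ b ∈ J, (s b + c b)) % 2 = 0 ∧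
    (∑ b ∈ J, (s b + c b) = 4 ∨ ∑ b ∈ J, (s b + c b) + 1 ≤ 3 * D)

private theorem cgd_symm {ι : Type} {B : Finset ι} {s c : ι → ℕ} {D : ℕ} {J : Finset ι}
    (h : CGd B s c D J) : CGd B c s D J := by
  obtain ⟨h1, h2, h3, h4, h5, h6⟩ := h
  have e : ∑ b ∈ J, (c b + s b) = ∑ b ∈ J, (s b + c b) :=
    Finset.sum_congr rfl fun b _ => Nat.add_comm _ _
  refine ⟨h1, h2, h4, h3, ?_, ?_⟩
  · rw [e]; exact h5
  · rw [e]; exact h6

private theorem comb_odd {ι : Type} [DecidableEq ι] (B I : Finset ι) (t : ι → ℕ) (hI : I ⊆ B)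
    (hB : (∑ b ∈ B, t b) % 2 = 0) (hodd : (∑ b ∈ I, t b) % 2 = 1) :
    ∃ H ∈ B, H ∉ I ∧ t H % 2 = 1 := by
  by_contra hcon
  push Not at hcon
  have h1 : ∑ b ∈ B \ I, t b + ∑ b ∈ I, t b = ∑ b ∈ B, t b := Finset.sum_sdiff hI
  have h2 : 2 ∣ ∑ b ∈ B \ I, t b := by
    apply Finset.dvd_sum
    intro b hb
    rw [Finset.mem_sdiff] at hb
    have := hcon b hb.1 hb.2
    omega
  omega

/-- adding an odd block -/
private theorem comb_add {ι : Type} [DecidableEq ι] (B I : Finset ι) (s c : ι → ℕ) (D : ℕ)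
    (hI : I ⊆ B) (hcard : I.card ≤ 3) (hs : 2 ≤ ∑ b ∈ I, s b) (hc : 2 ≤ ∑ b ∈ I, c b)
    (hodd : (∑ b ∈ I, (s b + c b)) % 2 = 1) (H : ι) (hH : H ∈ B) (hHI : H ∉ I)
    (hHo : (s H + c H) % 2 = 1) (hbound : ∑ b ∈ I, (s b + c b) + (s H + c H) + 1 ≤ 3 * D) :
    ∃ J, CGd B s c D J := by
  refine ⟨insert H I, ?_, ?_, ?_, ?_, ?_, ?_⟩
  · exact Finset.insert_subset hH hI
  · rw [Finset.card_insert_of_notMem hHI]; omega
  · rw [Finset.sum_insert hHI]; omega
  · rw [Finset.sum_insert hHI]; omega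
  · rw [Finset.sum_insert hHI]; omega
  · rw [Finset.sum_insert hHI]; omega

private theorem comb_sum3 {ι : Type} [DecidableEq ι] (f : ι → ℕ) (x y z : ι) (hxy : x ≠ y)
    (hxz : x ≠ z) (hyz : y ≠ z) : ∑ b ∈ ({x, y, z} : Finset ι), f b = f x + f y + f z := by
  rw [Finset.sum_insert (by simp [hxy, hxz]), Finset.sum_pair hyz]
  omega

private theorem comb_three_set {ι : Type} [DecidableEq ι] (B : Finset ι) (s c : ι → ℕ) (D : ℕ)
    (x y z : ι) (hx : x ∈ B) (hy : y ∈ B) (hz : z ∈ B) (hxy : x ≠ y) (hxz : x ≠ z) (hyz : y ≠ z)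
    (hs : 2 ≤ s x + s y + s z) (hc : 2 ≤ c x + c y + c z)
    (he : ((s x + c x) + (s y + c y) + (s z + c z)) % 2 = 0)
    (hb : (s x + c x) + (s y + c y) + (s z + c z) = 4 ∨
      (s x + c x) + (s y + c y) + (s z + c z) + 1 ≤ 3 * D) :
    CGd B s c D {x, y, z} := by
  refine ⟨?_, ?_, ?_, ?_, ?_, ?_⟩
  · intro b hb'
    simp only [Finset.mem_insert, Finset.mem_singleton] at hb'
    rcases hb' with rfl | rfl | rfl <;> assumption
  · exact le_trans Finset.card_le_three (by norm_num)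
  · rw [comb_sum3 s x y z hxy hxz hyz]; exact hs
  · rw [comb_sum3 c x y z hxy hxz hyz]; exact hc
  · rw [comb_sum3 (fun b => s b + c b) x y z hxy hxz hyz]; exact he
  · rw [comb_sum3 (fun b => s b + c b) x y z hxy hxz hyz]; exact hb

/-- three blocks, two of which are critical for `s` -/
private theorem comb_three {ι : Type} [DecidableEq ι] (B : Finset ι) (s c : ι → ℕ) (D : ℕ)
    (hB : (∑ b ∈ B, (s b + c b)) % 2 = 0) (ht : ∀ b ∈ B, s b + c b ≤ D)
    (x y z : ι) (hx : x ∈ B) (hy : y ∈ B) (hz : z ∈ B) (hxy : x ≠ y) (hxz : x ≠ z) (hyz : y ≠ z)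
    (h1 : s x = 1) (h2 : s y = 1) (h3 : s z = 0) (h4 : c x + c y ≤ 1)
    (h5 : 2 ≤ c x + c y + c z) : ∃ J, CGd B s c D J := by
  have tx := ht x hx
  have ty := ht y hy
  have tz := ht z hz
  rcases Nat.mod_two_eq_zero_or_one ((s x + c x) + (s y + c y) + (s z + c z)) with he | ho
  · exact ⟨_, comb_three_set B s c D x y z hx hy hz hxy hxz hyz (by omega) h5 he (by omega)⟩
  · have hIB : ({x, y, z} : Finset ι) ⊆ B := by
      intro b hb'
      simp only [Finset.mem_insert, Finset.mem_singleton] at hb'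
      rcases hb' with rfl | rfl | rfl <;> assumption
    have hsum := comb_sum3 (fun b => s b + c b) x y z hxy hxz hyz
    obtain ⟨H, hHB, hHI, hHo⟩ := comb_odd B {x, y, z} (fun b => s b + c b) hIB hB
      (by rw [hsum]; exact ho)
    simp only [Finset.mem_insert, Finset.mem_singleton, not_or] at hHI
    obtain ⟨hHx, hHy, hHz⟩ := hHI
    have tH := ht H hHB
    by_cases hD : 3 ≤ D
    · refine comb_add B {x, y, z} s c D hIB Finset.card_le_three ?_ ?_ ?_ H hHB ?_ hHo ?_
      · rw [comb_sum3 s x y z hxy hxz hyz]; omega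
      · rw [comb_sum3 c x y z hxy hxz hyz]; omega
      · rw [hsum]; exact ho
      · simp only [Finset.mem_insert, Finset.mem_singleton, not_or]
        exact ⟨hHx, hHy, hHz⟩
      · rw [hsum]; omega
    · have hD2 : D = 2 := by omega
      subst hD2
      rcases Nat.eq_zero_or_pos (s H) with hsH | hsH
      · -- `H` is on the other side
        exact ⟨_, comb_three_set B s c 2 x y H hx hy hHB hxy (Ne.symm hHx) (Ne.symm hHy)
          (by omega) (by omega) (by omega) (by omega)⟩
      · rcases Nat.eq_zero_or_pos (c x) with hcx | hcx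
        · exact ⟨_, comb_three_set B s c 2 x H z hx hHB hz (Ne.symm hHx) hxz hHz
            (by omega) (by omega) (by omega) (by omega)⟩
        · exact ⟨_, comb_three_set B s c 2 y H z hy hHB hz (Ne.symm hHy) hyz hHz
            (by omega) (by omega) (by omega) (by omega)⟩

/-- three blocks -/
private theorem comb_three' {ι : Type} [DecidableEq ι] (B : Finset ι) (s c : ι → ℕ) (D : ℕ)
    (hB : (∑ b ∈ B, (s b + c b)) % 2 = 0) (ht : ∀ b ∈ B, s b + c b ≤ D)
    (x y z : ι) (hx : x ∈ B) (hy : y ∈ B) (hz : z ∈ B) (hxy : x ≠ y) (hxz : x ≠ z) (hyz : y ≠ z)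
    (hs : 2 ≤ s x + s y + s z) (hc : 2 ≤ c x + c y + c z)
    (mx : s y + s z ≤ 1 ∨ c y + c z ≤ 1) (my : s x + s z ≤ 1 ∨ c x + c z ≤ 1)
    (mz : s x + s y ≤ 1 ∨ c x + c y ≤ 1) : ∃ J, CGd B s c D J := by
  have hB' : (∑ b ∈ B, (c b + s b)) % 2 = 0 := by
    rw [Finset.sum_congr rfl fun b _ => Nat.add_comm (c b) (s b)]; exact hB
  have ht' : ∀ b ∈ B, c b + s b ≤ D := fun b hb => by rw [Nat.add_comm]; exact ht b hb
  have swap : (∃ J, CGd B c s D J) → ∃ J, CGd B s c D J := fun ⟨J, h⟩ => ⟨J, cgd_symm h⟩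
  rcases mx with mx | mx <;> rcases my with my | my
  · -- `x`, `y` critical for `s`
    exact comb_three B s c D hB ht x y z hx hy hz hxy hxz hyz (by omega) (by omega) (by omega)
      (by omega) hc
  · rcases mz with mz | mz
    · exact comb_three B s c D hB ht x z y hx hz hy hxz hxy (Ne.symm hyz) (by omega) (by omega)
        (by omega) (by omega) (by omega)
    · exact swap (comb_three B c s D hB' ht' y z x hy hz hx hyz (Ne.symm hxy) (Ne.symm hxz)
        (by omega) (by omega) (by omega) (by omega) (by omega))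
  · rcases mz with mz | mz
    · exact comb_three B s c D hB ht y z x hy hz hx hyz (Ne.symm hxy) (Ne.symm hxz)
        (by omega) (by omega) (by omega) (by omega) (by omega)
    · exact swap (comb_three B c s D hB' ht' x z y hx hz hy hxz hxy (Ne.symm hyz) (by omega)
        (by omega) (by omega) (by omega) (by omega))
  · exact swap (comb_three B c s D hB' ht' x y z hx hy hz hxy hxz hyz (by omega) (by omega)
      (by omega) (by omega) hs)

/-- at most two critical blocks -/
private theorem comb_crit {ι : Type} [DecidableEq ι] (I : Finset ι) (s : ι → ℕ)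
    (hs : 2 ≤ ∑ b ∈ I, s b) :
    (I.filter fun b => ∑ x ∈ I.erase b, s x ≤ 1).card ≤ 2 := by
  by_contra hcon
  rw [not_le, Finset.two_lt_card] at hcon
  obtain ⟨x, hx, y, hy, z, hz, hxy, hxz, hyz⟩ := hcon
  rw [Finset.mem_filter] at hx hy hz
  have e1 := Finset.add_sum_erase I s hy.1
  have e2 := Finset.add_sum_erase I s hz.1
  have e3 : ∑ b ∈ ({y, z} : Finset ι), s b ≤ ∑ b ∈ I.erase x, s b := by
    apply Finset.sum_le_sum_of_subset
    intro b hb
    simp only [Finset.mem_insert, Finset.mem_singleton] at hb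
    rw [Finset.mem_erase]
    rcases hb with rfl | rfl
    · exact ⟨Ne.symm hxy, hy.1⟩
    · exact ⟨Ne.symm hxz, hz.1⟩
  rw [Finset.sum_pair hyz] at e3
  have h1 := hx.2
  have h2 := hy.2
  have h3 := hz.2
  omega

/-- two critical blocks: the sum is two -/
private theorem comb_crit2 {ι : Type} [DecidableEq ι] (I : Finset ι) (s : ι → ℕ)
    (h : 2 ≤ (I.filter fun b => ∑ x ∈ I.erase b, s x ≤ 1).card) :
    ∑ b ∈ I, s b ≤ 2 := by
  have h1 : 1 < (I.filter fun b => ∑ x ∈ I.erase b, s x ≤ 1).card := h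
  rw [Finset.one_lt_card] at h1
  obtain ⟨x, hx, y, hy, hxy⟩ := h1
  rw [Finset.mem_filter] at hx hy
  have e1 := Finset.add_sum_erase I s hx.1
  have e2 : s x ≤ ∑ b ∈ I.erase y, s b :=
    Finset.single_le_sum (f := s) (fun _ _ => Nat.zero_le _) (Finset.mem_erase.2 ⟨hxy, hx.1⟩)
  have h1 := hx.2
  have h2 := hy.2
  omega

/-- the arithmetic statement -/
private theorem comb_arith {ι : Type} [DecidableEq ι] (B : Finset ι) (s c : ι → ℕ) (D : ℕ)
    (hB : (∑ b ∈ B, (s b + c b)) % 2 = 0) (ht : ∀ b ∈ B, s b + c b ≤ D)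
    (hsB : 2 ≤ ∑ b ∈ B, s b) (hcB : 2 ≤ ∑ b ∈ B, c b) : ∃ J, CGd B s c D J := by
  classical
  have hne : (B.powerset.filter fun I => 2 ≤ ∑ b ∈ I, s b ∧ 2 ≤ ∑ b ∈ I, c b).Nonempty :=
    ⟨B, by simp [hsB, hcB]⟩
  obtain ⟨I, hI, hImin⟩ := Finset.exists_min_image _ Finset.card hne
  rw [Finset.mem_filter, Finset.mem_powerset] at hI
  obtain ⟨hIB, hs, hc⟩ := hI
  have hcr : ∀ b ∈ I, ∑ x ∈ I.erase b, s x ≤ 1 ∨ ∑ x ∈ I.erase b, c x ≤ 1 := by
    intro b hb
    by_contra hcon
    push Not at hcon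
    have h1 := hImin (I.erase b) (by
      rw [Finset.mem_filter, Finset.mem_powerset]
      exact ⟨(Finset.erase_subset b I).trans hIB, hcon.1, hcon.2⟩)
    have h2 := Finset.card_erase_lt_of_mem hb
    omega
  have hunion : I.card ≤ (I.filter fun b => ∑ x ∈ I.erase b, s x ≤ 1).card +
      (I.filter fun b => ∑ x ∈ I.erase b, c x ≤ 1).card := by
    refine le_trans (Finset.card_le_card ?_) (Finset.card_union_le _ _)
    intro b hb
    rw [Finset.mem_union, Finset.mem_filter, Finset.mem_filter]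
    rcases hcr b hb with h | h
    · exact Or.inl ⟨hb, h⟩
    · exact Or.inr ⟨hb, h⟩
  have k1 := comb_crit I s hs
  have k2 := comb_crit I c hc
  have htot : ∑ b ∈ I, (s b + c b) = ∑ b ∈ I, s b + ∑ b ∈ I, c b := Finset.sum_add_distrib
  have hcard : I.card ≤ 4 := by omega
  rcases Nat.lt_or_ge I.card 4 with h4 | h4
  swap
  · -- four blocks
    have e1 := comb_crit2 I s (by omega)
    have e2 := comb_crit2 I c (by omega)
    exact ⟨I, hIB, hcard, hs, hc, by omega, by omega⟩
  rcases Nat.lt_or_ge I.card 3 with h3 | h3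
  swap
  · -- three blocks
    obtain ⟨x, y, z, hxy, hxz, hyz, rfl⟩ := Finset.card_eq_three.1 (show I.card = 3 by omega)
    have hx : x ∈ ({x, y, z} : Finset ι) := by simp
    have hy : y ∈ ({x, y, z} : Finset ι) := by simp
    have hz : z ∈ ({x, y, z} : Finset ι) := by simp
    have s3 := comb_sum3 s x y z hxy hxz hyz
    have c3 := comb_sum3 c x y z hxy hxz hyz
    have a1 := Finset.add_sum_erase _ s hx
    have a2 := Finset.add_sum_erase _ s hy
    have a3 := Finset.add_sum_erase _ s hz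
    have b1 := Finset.add_sum_erase _ c hx
    have b2 := Finset.add_sum_erase _ c hy
    have b3 := Finset.add_sum_erase _ c hz
    have m1 := hcr x hx
    have m2 := hcr y hy
    have m3 := hcr z hz
    exact comb_three' B s c D hB ht x y z (hIB hx) (hIB hy) (hIB hz) hxy hxz hyz (by omega)
      (by omega) (by omega) (by omega) (by omega)
  -- at most two blocks
  have hle : ∑ b ∈ I, (s b + c b) ≤ I.card * D := by
    rw [← smul_eq_mul]
    exact Finset.sum_le_card_nsmul I _ D fun b hb => ht b (hIB hb)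
  have hI0 : I.card ≠ 0 := by
    intro h0
    rw [Finset.card_eq_zero] at h0
    rw [h0, Finset.sum_empty] at hs
    omega
  have hle2 : ∑ b ∈ I, (s b + c b) ≤ 2 * D := by
    refine hle.trans (Nat.mul_le_mul_right D (by omega))
  rcases Nat.mod_two_eq_zero_or_one (∑ b ∈ I, (s b + c b)) with he | ho
  · exact ⟨I, hIB, hcard, hs, hc, he, by omega⟩
  · obtain ⟨H, hHB, hHI, hHo⟩ := comb_odd B I (fun b => s b + c b) hIB hB ho
    have tH := ht H hHB
    exact comb_add B I s c D hIB (by omega) hs hc ho H hHB hHI hHo (by omega)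

private theorem comb_fib {n : ℕ} {ι : Type} [DecidableEq ι] (β : Fin n → ι)
    (S : Finset (Fin n)) (J : Finset ι) :
    (S.filter fun j => β j ∈ J).card = ∑ b ∈ J, (S.filter fun j => β j = b).card := by
  have h1 : ∀ j ∈ S.filter fun j => β j ∈ J, β j ∈ J := fun j hj => (Finset.mem_filter.1 hj).2
  rw [Finset.card_eq_sum_card_fiberwise h1]
  refine Finset.sum_congr rfl fun b hb => ?_
  congr 1
  ext j
  simp only [Finset.mem_filter]
  constructor
  · rintro ⟨⟨h2, _⟩, h3⟩
    exact ⟨h2, h3⟩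
  · rintro ⟨h2, h3⟩
    exact ⟨⟨h2, h3 ▸ hb⟩, h3⟩

theorem piece_COMB : S_COMB := by
  intro n D ι _ β hn _ hD S hS hSc
  have hsplit : ∀ b, (S.filter fun j => β j = b).card + (Sᶜ.filter fun j => β j = b).card =
      (Finset.univ.filter fun j => β j = b).card := by
    intro b
    rw [← Finset.card_union_of_disjoint, ← Finset.filter_union, Finset.union_compl]
    exact Finset.disjoint_filter_filter disjoint_compl_right
  have hJsum : ∀ J : Finset ι, (Finset.univ.filter fun j => β j ∈ J).card =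
      ∑ b ∈ J, ((S.filter fun j => β j = b).card + (Sᶜ.filter fun j => β j = b).card) := by
    intro J
    rw [comb_fib β Finset.univ J]
    exact Finset.sum_congr rfl fun b _ => (hsplit b).symm
  have hall : ∀ T : Finset (Fin n), (T.filter fun j => β j ∈ Finset.univ.image β) = T := by
    intro T
    rw [Finset.filter_eq_self]
    intro j _
    exact Finset.mem_image_of_mem β (Finset.mem_univ j)
  obtain ⟨J, h1, h2, h3, h4, h5, h6⟩ := comb_arith (Finset.univ.image β)
    (fun b => (S.filter fun j => β j = b).card) (fun b => (Sᶜ.filter fun j => β j = b).card) D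
    (by
      rw [← hJsum, hall, Finset.card_univ, Fintype.card_fin]
      exact Nat.even_iff.1 hn)
    (fun b _ => by
      rw [hsplit b]
      exact hD b)
    (by rw [← comb_fib, hall]; exact hS)
    (by rw [← comb_fib, hall]; exact hSc)
  rw [← hJsum] at h5 h6
  rw [← comb_fib] at h3 h4
  have e1 : (Finset.univ.filter fun j => β j ∈ J) ∩ S = S.filter fun j => β j ∈ J := by
    ext j
    simp only [Finset.mem_inter, Finset.mem_filter, Finset.mem_univ, true_and]
    tauto
  have e2 : (Finset.univ.filter fun j => β j ∈ J) \ S = Sᶜ.filter fun j => β j ∈ J := by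
    ext j
    simp only [Finset.mem_sdiff, Finset.mem_filter, Finset.mem_univ, true_and,
      Finset.mem_compl]
    tauto
  have e3 : (S.filter fun j => β j ∈ J).card + (Sᶜ.filter fun j => β j ∈ J).card =
      (Finset.univ.filter fun j => β j ∈ J).card := by
    rw [comb_fib, comb_fib, hJsum, Finset.sum_add_distrib]
  refine ⟨J, h1, h2, ⟨((Finset.univ.filter fun j => β j ∈ J).card - 2) / 2, ?_, ?_, ?_⟩, ?_, ?_⟩
  · omega
  · omega
  · omega
  · rw [e1]; exact h3
  · rw [e2]; exact h4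

end Pool.Agent.Lib.MP_ca2859_nt.FF
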