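import Mathlib
import Pool.Agent.Lib.MP_ca2859_nt.FF.Stm

/-!
# CR4: cross ratios of four roots are bounded by the discriminant of the resolvent cubic curve
-/

open Polynomial WithZero IsDedekindDomain NumberField
open Pool.Agent.Lib.MP_ca2859_nt Pool.Agent.Lib.MP_ca2859_nt.GR

namespace Pool.Agent.Lib.MP_ca2859_nt.FF

private lemma CR4_expand {L : Type*} [CommRing L] (r₁ r₂ r₃ r₄ : L) :
    (X - C r₁) * (X - C r₂) * (X - C r₃) * (X - C r₄) =
      X ^ 4 - C (r₁ + r₂ + r₃ + r₄) * X ^ 3 +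
      C (r₁ * r₂ + r₁ * r₃ + r₁ * r₄ + r₂ * r₃ + r₂ * r₄ + r₃ * r₄) * X ^ 2 -
      C (r₁ * r₂ * r₃ + r₁ * r₂ * r₄ + r₁ * r₃ * r₄ + r₂ * r₃ * r₄) * X +
      C (r₁ * r₂ * r₃ * r₄) := by
  simp only [C_add, C_mul]
  ring

private lemma CR4_coeff {L : Type*} [CommRing L] (r₁ r₂ r₃ r₄ : L) :
    ((X - C r₁) * (X - C r₂) * (X - C r₃) * (X - C r₄)).coeff 0 = r₁ * r₂ * r₃ * r₄ ∧
    ((X - C r₁) * (X - C r₂) * (X - C r₃) * (X - C r₄)).coeff 1 =
      -(r₁ * r₂ * r₃ + r₁ * r₂ * r₄ + r₁ * r₃ * r₄ + r₂ * r₃ * r₄) ∧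
    ((X - C r₁) * (X - C r₂) * (X - C r₃) * (X - C r₄)).coeff 2 =
      r₁ * r₂ + r₁ * r₃ + r₁ * r₄ + r₂ * r₃ + r₂ * r₄ + r₃ * r₄ ∧
    ((X - C r₁) * (X - C r₂) * (X - C r₃) * (X - C r₄)).coeff 3 = -(r₁ + r₂ + r₃ + r₄) := by
  rw [CR4_expand]
  generalize r₁ + r₂ + r₃ + r₄ = s₁
  generalize r₁ * r₂ + r₁ * r₃ + r₁ * r₄ + r₂ * r₃ + r₂ * r₄ + r₃ * r₄ = s₂
  generalize r₁ * r₂ * r₃ + r₁ * r₂ * r₄ + r₁ * r₃ * r₄ + r₂ * r₃ * r₄ = s₃
  generalize r₁ * r₂ * r₃ * r₄ = s₄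
  refine ⟨?_, ?_, ?_, ?_⟩ <;>
  simp [coeff_X, coeff_C, coeff_X_pow]

/-- the 2-torsion polynomial of `EQ q e` -/
private lemma CR4_poly {K L : Type} [Field K] [Field L] [Algebra K L] (q : K[X]) (e : K)
    (r₁ r₂ r₃ r₄ : L)
    (hq : q.map (algebraMap K L) = (X - C r₁) * (X - C r₂) * (X - C r₃) * (X - C r₄)) :
    (EQ q e).twoTorsionPolynomial.toPoly.map (algebraMap K L) =
      C 4 * ((X - C (algebraMap K L e * (r₁ * r₂ + r₃ * r₄))) *
        (X - C (algebraMap K L e * (r₁ * r₃ + r₂ * r₄))) *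
        (X - C (algebraMap K L e * (r₁ * r₄ + r₂ * r₃)))) := by
  obtain ⟨h0, h1, h2, h3⟩ := CR4_coeff r₁ r₂ r₃ r₄
  rw [← hq, coeff_map] at h0 h1 h2 h3
  set E := algebraMap K L e with hE
  have hp : (EQ q e).twoTorsionPolynomial.toPoly.map (algebraMap K L) =
      C (algebraMap K L 4) * X ^ 3 + C (algebraMap K L (EQ q e).b₂) * X ^ 2 +
      C (algebraMap K L (2 * (EQ q e).b₄)) * X + C (algebraMap K L (EQ q e).b₆) := by
    simp only [WeierstrassCurve.twoTorsionPolynomial, Cubic.toPoly, Polynomial.map_add,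
      Polynomial.map_mul, Polynomial.map_pow, Polynomial.map_X, Polynomial.map_C]
  have e2 : algebraMap K L (EQ q e).b₂ =
      -(4 * (E * (r₁ * r₂ + r₁ * r₃ + r₁ * r₄ + r₂ * r₃ + r₂ * r₄ + r₃ * r₄))) := by
    simp only [WeierstrassCurve.b₂, EQ, map_add, map_mul, map_pow, map_neg, h2, map_zero,
      map_ofNat, ← hE]
    ring
  have e4 : algebraMap K L (2 * (EQ q e).b₄) =
      4 * (E ^ 2 * ((r₁ + r₂ + r₃ + r₄) *
        (r₁ * r₂ * r₃ + r₁ * r₂ * r₄ + r₁ * r₃ * r₄ + r₂ * r₃ * r₄) -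
        4 * (r₁ * r₂ * r₃ * r₄))) := by
    simp only [WeierstrassCurve.b₄, EQ, map_add, map_sub, map_mul, map_pow, h0, h1, h3,
      map_zero, map_ofNat, ← hE]
    ring
  have e6 : algebraMap K L (EQ q e).b₆ =
      -(4 * (E ^ 3 * ((r₁ * r₂ * r₃ + r₁ * r₂ * r₄ + r₁ * r₃ * r₄ + r₂ * r₃ * r₄) ^ 2 +
        (r₁ + r₂ + r₃ + r₄) ^ 2 * (r₁ * r₂ * r₃ * r₄) -
        4 * (r₁ * r₂ + r₁ * r₃ + r₁ * r₄ + r₂ * r₃ + r₂ * r₄ + r₃ * r₄) *
          (r₁ * r₂ * r₃ * r₄)))) := by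
    simp only [WeierstrassCurve.b₆, EQ, map_add, map_sub, map_mul, map_pow, map_neg, h0, h1, h2,
      h3, map_zero, map_ofNat, ← hE]
    ring
  have e1 : algebraMap K L 4 = 4 := map_ofNat _ 4
  have c4 : (C (4 : L) : L[X]) = 4 := map_ofNat C 4
  rw [hp, e1, e2, e4, e6]
  simp only [C_add, C_mul, C_neg, C_pow, C_sub, c4]
  ring

private lemma CR4_disc {K L : Type} [Field K] [Field L] [Algebra K L] (q : K[X]) (e : K)
    (r₁ r₂ r₃ r₄ : L)
    (hq : q.map (algebraMap K L) = (X - C r₁) * (X - C r₂) * (X - C r₃) * (X - C r₄)) :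
    algebraMap K L (EQ q e).Δ = 16 * (algebraMap K L e ^ 3 * ((r₁ - r₄) * (r₂ - r₃)) *
      ((r₁ - r₃) * (r₂ - r₄)) * ((r₁ - r₂) * (r₃ - r₄))) ^ 2 := by
  obtain ⟨h0, h1, h2, h3⟩ := CR4_coeff r₁ r₂ r₃ r₄
  rw [← hq, coeff_map] at h0 h1 h2 h3
  simp only [WeierstrassCurve.Δ, WeierstrassCurve.b₂,
    WeierstrassCurve.b₄, WeierstrassCurve.b₆, WeierstrassCurve.b₈, EQ, map_add, map_sub, map_mul,
    map_pow, map_neg, h0, h1, h2, h3, map_zero, map_ofNat]
  ring

theorem piece_CR4 : S_CR4 := by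
  intro K _ _ L _ _ _ v w hvw n α hα T q hT hq e he i hi j hj k hk l hl hij hik hil hjk hjl hkl
  have := hvw
  have hTeq : ({i, j, k, l} : Finset (Fin n)) = T := by
    refine Finset.eq_of_subset_of_card_le ?_ ?_
    · intro x hx
      simp only [Finset.mem_insert, Finset.mem_singleton] at hx
      rcases hx with rfl | rfl | rfl | rfl <;> assumption
    · rw [hT]
      have : ({i, j, k, l} : Finset (Fin n)).card = 4 := by
        rw [Finset.card_insert_of_notMem (by simp [hij, hik, hil]),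
          Finset.card_insert_of_notMem (by simp [hjk, hjl]),
          Finset.card_insert_of_notMem (by simp [hkl]), Finset.card_singleton]
      omega
  have hq' : q.map (algebraMap K L) =
      (X - C (α i)) * (X - C (α j)) * (X - C (α k)) * (X - C (α l)) := by
    rw [hq, ← hTeq, Finset.prod_insert (by simp [hij, hik, hil]),
      Finset.prod_insert (by simp [hjk, hjl]), Finset.prod_insert (by simp [hkl]),
      Finset.prod_singleton]
    ring
  have hne : ∀ a b : Fin n, a ≠ b → α a - α b ≠ 0 := fun a b hab =>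
    sub_ne_zero.2 fun h => hab (hα h)
  have heL : algebraMap K L e ≠ 0 := by simpa using he
  have hΔ : (EQ q e).Δ ≠ 0 := by
    intro h0
    have h1 := CR4_disc q e (α i) (α j) (α k) (α l) hq'
    rw [h0, map_zero] at h1
    have h2 : (16 : L) * (algebraMap K L e ^ 3 * ((α i - α l) * (α j - α k)) *
      ((α i - α k) * (α j - α l)) * ((α i - α j) * (α k - α l))) ^ 2 ≠ 0 := by
      refine mul_ne_zero (by norm_num) (pow_ne_zero _ ?_)
      exact mul_ne_zero (mul_ne_zero (mul_ne_zero (pow_ne_zero _ heL)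
        (mul_ne_zero (hne _ _ hil) (hne _ _ hjk))) (mul_ne_zero (hne _ _ hik) (hne _ _ hjl)))
        (mul_ne_zero (hne _ _ hij) (hne _ _ hkl))
    exact h2 h1.symm
  obtain ⟨hf, hle⟩ := two_torsion_hyper (EQ q e) hΔ
  set E := algebraMap K L e with hE
  let β : Fin (2 * 1 + 1) → L := ![E * (α i * α j + α k * α l), E * (α i * α k + α j * α l),
    E * (α i * α l + α j * α k)]
  have hβ01 : β 0 - β 1 = E * ((α i - α l) * (α j - α k)) := by
    simp only [β, Matrix.cons_val_zero, Matrix.cons_val_one]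
    ring
  have hβ20 : β 2 - β 0 = -(E * ((α i - α k) * (α j - α l))) := by
    simp only [β, Matrix.cons_val_zero, Matrix.cons_val]
    ring
  have hβ21 : β 2 - β 1 = -(E * ((α i - α j) * (α k - α l))) := by
    simp only [β, Matrix.cons_val_one, Matrix.cons_val]
    ring
  have n01 : β 0 ≠ β 1 := by
    rw [← sub_ne_zero, hβ01]
    exact mul_ne_zero heL (mul_ne_zero (hne _ _ hil) (hne _ _ hjk))
  have n20 : β 2 ≠ β 0 := by
    rw [← sub_ne_zero, hβ20]
    exact neg_ne_zero.2 (mul_ne_zero heL (mul_ne_zero (hne _ _ hik) (hne _ _ hjl)))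
  have n21 : β 2 ≠ β 1 := by
    rw [← sub_ne_zero, hβ21]
    exact neg_ne_zero.2 (mul_ne_zero heL (mul_ne_zero (hne _ _ hij) (hne _ _ hkl)))
  have hβinj : Function.Injective β := by
    intro a b hab
    fin_cases a <;> fin_cases b
    · rfl
    · exact absurd hab n01
    · exact absurd hab n20.symm
    · exact absurd hab n01.symm
    · rfl
    · exact absurd hab n21.symm
    · exact absurd hab n20
    · exact absurd hab n21
    · rfl
  have hfβ : (EQ q e).twoTorsionPolynomial.toPoly.map (algebraMap K L) =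
      C 4 * ∏ j, (X - C (β j)) := by
    rw [CR4_poly q e _ _ _ _ hq']
    congr 1
    have : (∏ j : Fin (2 * 1 + 1), (X - C (β j))) = ∏ j : Fin 3, (X - C (β j)) := rfl
    rw [this, Fin.prod_univ_three]
    rfl
  have h1 := cross_bound_infty 1 le_rfl _ hf v w 4 (by norm_num) β hβinj hfβ 2 0 1 (by decide)
    (by decide) (by decide)
  rw [hβ20, hβ21] at h1
  have hneg : ∀ x : L, ord (w.valuation L) (-x) = ord (w.valuation L) x := by
    intro x
    rw [ord, ord, Valuation.map_neg]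
  rw [hneg, hneg, ord_mul heL (mul_ne_zero (hne _ _ hik) (hne _ _ hjl)),
    ord_mul heL (mul_ne_zero (hne _ _ hij) (hne _ _ hkl))] at h1
  have h2 := hle v
  have h3 : ((Ideal.ramificationIdx' v.asIdeal w.asIdeal : ℕ) : ℤ) *
      (discExp 1 (EQ q e).twoTorsionPolynomial.toPoly v : ℤ) ≤
      ((Ideal.ramificationIdx' v.asIdeal w.asIdeal : ℕ) : ℤ) * (discExpE (EQ q e) v : ℤ) := by
    exact mul_le_mul_of_nonneg_left (by exact_mod_cast h2) (Int.natCast_nonneg _)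
  push_cast at h1 ⊢
  linarith

end Pool.Agent.Lib.MP_ca2859_nt.FF
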