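import Pool.Agent.Lib.MP_ca2859_nt.FF.Stm

set_option autoImplicit false

open Polynomial WithZero IsDedekindDomain NumberField
open Pool.Agent.Lib.MP_ca2859_nt Pool.Agent.Lib.MP_ca2859_nt.GR

namespace Pool.Agent.Lib.MP_ca2859_nt.FF

/-- CR6 -/
theorem piece_CR6 : S_CR6 := by
  intro K _ _ L _ _ _ v w hw n α hα T q g' hg' hT hq e he i hi j hj k hk l hl hij hik hil hjk hjl hkl
  let φ : T ≃ Fin (2 * g' + 2) := T.equivFinOfCardEq hT
  let β : Fin (2 * g' + 2) → L := fun m => α (φ.symm m).1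
  have hβ : Function.Injective β := fun a b h =>
    φ.symm.injective (Subtype.ext (hα h))
  have hprod : ∏ j ∈ T, (X - C (α j)) = ∏ m, (X - C (β m)) := by
    rw [← Finset.prod_coe_sort T, ← Equiv.prod_comp φ.symm]
  have he' : algebraMap K L e ≠ 0 := by rwa [Ne, map_eq_zero]
  have hmap : (C e * q).map (algebraMap K L) = C (algebraMap K L e) * ∏ m, (X - C (β m)) := by
    rw [Polynomial.map_mul, Polynomial.map_C, hq, hprod]
  have hsep : (C e * q).Separable := by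
    rw [← Polynomial.separable_map (algebraMap K L), hmap]
    exact Separable.unit_mul (isUnit_C.mpr (isUnit_iff_ne_zero.mpr he'))
      (separable_prod_X_sub_C_iff.mpr hβ)
  have hdeg : (C e * q).natDegree = 2 * g' + 2 := by
    rw [← natDegree_map (algebraMap K L), hmap]
    exact natDegree_split _ he' _
  have hhyp : IsHyperelliptic g' (C e * q) := ⟨hsep, Or.inr hdeg⟩
  have hβφ : ∀ (i : Fin n) (hi : i ∈ T), β (φ ⟨i, hi⟩) = α i := by
    intro i hi
    show α (φ.symm (φ ⟨i, hi⟩)).1 = α i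
    rw [Equiv.symm_apply_apply]
  have hne : ∀ (i j : Fin n) (hi : i ∈ T) (hj : j ∈ T), i ≠ j → φ ⟨i, hi⟩ ≠ φ ⟨j, hj⟩ := by
    intro i j hi hj h h1
    exact h (congrArg Subtype.val (φ.injective h1))
  have h := cross_bound g' hg' (C e * q) hhyp v w (algebraMap K L e) he' β hβ hmap
    (φ ⟨i, hi⟩) (φ ⟨k, hk⟩) (φ ⟨j, hj⟩) (φ ⟨l, hl⟩) (hne _ _ _ _ hik) (hne _ _ _ _ hij)
    (hne _ _ _ _ hil) (hne _ _ _ _ hjk.symm) (hne _ _ _ _ hkl) (hne _ _ _ _ hjl)
  rw [hβφ, hβφ, hβφ, hβφ] at h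
  exact h

end Pool.Agent.Lib.MP_ca2859_nt.FF
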