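import Pool.Agent.Lib.MP_ca2859_nt.FF.Stm

/-!
# Fixed field theorem, piece EQD: the discriminant of the resolvent cubic curve is not zero
-/

set_option autoImplicit false

open Polynomial

namespace Pool.Agent.Lib.MP_ca2859_nt.FF

private theorem EQD_coeff0 {F : Type} [Field F] (s t u v : F) (p : Polynomial F)
    (h : p = X ^ 4 - C s * X ^ 3 + C t * X ^ 2 - C u * X + C v) :
    p.coeff 3 = -s ∧ p.coeff 2 = t ∧ p.coeff 1 = -u ∧ p.coeff 0 = v := by
  subst h
  refine ⟨?_, ?_, ?_, ?_⟩ <;>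
  simp [coeff_X, coeff_C]

private theorem EQD_coeff {F : Type} [Field F] (a b c d : F) (p : Polynomial F)
    (h : p = (X - C a) * ((X - C b) * ((X - C c) * (X - C d)))) :
    p.coeff 3 = -(a + b + c + d) ∧ p.coeff 2 = a * b + a * c + a * d + b * c + b * d + c * d ∧
    p.coeff 1 = -(a * b * c + a * b * d + a * c * d + b * c * d) ∧ p.coeff 0 = a * b * c * d := by
  refine EQD_coeff0 _ _ _ _ p ?_
  rw [h]
  simp only [map_add, map_mul]
  ring

private theorem EQD_disc {F : Type} [Field F] (e a b c d q3 q2 q1 q0 : F)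
    (h3 : q3 = -(a + b + c + d)) (h2 : q2 = a * b + a * c + a * d + b * c + b * d + c * d)
    (h1 : q1 = -(a * b * c + a * b * d + a * c * d + b * c * d)) (h0 : q0 = a * b * c * d) :
    (⟨0, -(e * q2), 0, e ^ 2 * (q3 * q1 - 4 * q0),
      -(e ^ 3 * (q1 ^ 2 + q3 ^ 2 * q0 - 4 * q2 * q0))⟩ : WeierstrassCurve F).Δ =
      16 * e ^ 6 * ((a - b) * (a - c) * (a - d) * (b - c) * (b - d) * (c - d)) ^ 2 := by
  subst h3 h2 h1 h0
  simp only [WeierstrassCurve.Δ, WeierstrassCurve.b₂, WeierstrassCurve.b₄, WeierstrassCurve.b₆,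
    WeierstrassCurve.b₈]
  ring

/-- EQD -/
theorem piece_EQD : S_EQD := by
  intro K _ _ q hm hd hs e he
  let σ : K →+* AlgebraicClosure K := algebraMap K (AlgebraicClosure K)
  have hsp : (q.map σ).Splits := IsAlgClosed.splits _
  have hcard : (q.map σ).roots.card = 4 := by
    rw [← hsp.natDegree_eq_card_roots, natDegree_map, hd]
  obtain ⟨a, b, c, d, hr⟩ := Multiset.card_eq_four.1 hcard
  have hnd : (q.map σ).roots.Nodup := nodup_roots (hs.map (f := σ))
  have hprod := hsp.eq_prod_roots_of_monic (hm.map σ)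
  rw [hr] at hnd hprod
  have hp : q.map σ = (X - C a) * ((X - C b) * ((X - C c) * (X - C d))) := by
    rw [hprod]
    simp
  obtain ⟨h3, h2, h1, h0⟩ := EQD_coeff a b c d (q.map σ) hp
  rw [coeff_map] at h3 h2 h1 h0
  have hne : (a - b) * (a - c) * (a - d) * (b - c) * (b - d) * (c - d) ≠ 0 := by
    simp only [Multiset.insert_eq_cons, Multiset.nodup_cons, Multiset.mem_cons,
      Multiset.mem_singleton, not_or, Multiset.nodup_singleton, and_true] at hnd
    obtain ⟨⟨h1, h2, h3⟩, ⟨h4, h5⟩, h6⟩ := hnd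
    simp only [mul_ne_zero_iff, sub_ne_zero]
    exact ⟨⟨⟨⟨⟨h1, h2⟩, h3⟩, h4⟩, h5⟩, h6⟩
  have hD := EQD_disc (σ e) a b c d _ _ _ _ h3 h2 h1 h0
  intro h
  have hmap : σ (EQ q e).Δ = (⟨0, -(σ e * σ (q.coeff 2)), 0,
      σ e ^ 2 * (σ (q.coeff 3) * σ (q.coeff 1) - 4 * σ (q.coeff 0)),
      -(σ e ^ 3 * (σ (q.coeff 1) ^ 2 + σ (q.coeff 3) ^ 2 * σ (q.coeff 0) -
        4 * σ (q.coeff 2) * σ (q.coeff 0)))⟩ : WeierstrassCurve (AlgebraicClosure K)).Δ := by
    simp only [EQ, WeierstrassCurve.Δ, WeierstrassCurve.b₂, WeierstrassCurve.b₄,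
      WeierstrassCurve.b₆, WeierstrassCurve.b₈, map_add, map_sub, map_mul, map_neg, map_pow,
      map_zero, map_ofNat]
  rw [h, map_zero, hD] at hmap
  have h16 : (16 : AlgebraicClosure K) ≠ 0 := by norm_num
  have he' : σ e ≠ 0 := (map_ne_zero σ).2 he
  exact mul_ne_zero (mul_ne_zero h16 (pow_ne_zero 6 he')) (pow_ne_zero 2 hne) hmap.symm

end Pool.Agent.Lib.MP_ca2859_nt.FF
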