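import Pool.Agent.Lib.MP_ca2859_nt.FF.Stm

/-!
# FixedField, piece FLIP: the degrees of the irreducible factors under `x ↦ 1/x + t`
-/

open Polynomial IntermediateField
open Pool.Agent.Lib.MP_ca2859_nt

namespace Pool.Agent.Lib.MP_ca2859_nt.FF

private theorem FLIP_map {K L : Type} [Field K] [Field L] (φ : K →+* L) (g : ℕ) (t : K)
    (f : K[X]) : (flip g t f).map φ = flip g (φ t) (f.map φ) := by
  unfold flip
  rw [← reflect_map, map_taylor]

theorem piece_FLIP : S_FLIP := by
  intro K _ _ g D f t hf hd hD hDeg p hp hpf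
  obtain ⟨β, hβ⟩ := IsAlgClosed.exists_aeval_eq_zero (AlgebraicClosure K) p
    (ne_of_gt hp.degree_pos)
  have hβi : IsIntegral K β := Algebra.IsIntegral.isIntegral β
  have hpd : p.natDegree = (minpoly K β).natDegree := by
    have h1 := minpoly.eq_of_irreducible hp hβ
    rw [← h1, natDegree_mul_C (inv_ne_zero (leadingCoeff_ne_zero.2 hp.ne_zero))]
  rw [hpd]
  by_cases h0 : β = 0
  · rw [h0, minpoly.zero, natDegree_X]
    exact hD
  · obtain ⟨γ, hγ⟩ : ∃ γ, γ = β⁻¹ + algebraMap K (AlgebraicClosure K) t := ⟨_, rfl⟩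
    have hγi : IsIntegral K γ := Algebra.IsIntegral.isIntegral γ
    have h1 : aeval β (flip g t f) = 0 := by
      obtain ⟨s, hs⟩ := hpf
      rw [hs, map_mul, hβ, zero_mul]
    have h2 : aeval γ f = 0 := by
      rw [aeval_def, eval₂_eq_eval_map, FLIP_map,
        flip_eval g _ _ (by rw [natDegree_map]; exact hd) β h0, ← hγ] at h1
      rcases mul_eq_zero.1 h1 with h | h
      · exact absurd h (pow_ne_zero _ h0)
      · rw [aeval_def, eval₂_eq_eval_map]
        exact h
    have h3 : (minpoly K γ).natDegree ≤ D :=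
      hDeg _ (minpoly.irreducible hγi) (minpoly.dvd K γ h2)
    have h4 : K⟮β⟯ ≤ K⟮γ⟯ := by
      rw [adjoin_simple_le_iff]
      have e : β = (γ - algebraMap K (AlgebraicClosure K) t)⁻¹ := by
        rw [hγ, add_sub_cancel_right, inv_inv]
      rw [e]
      exact inv_mem (sub_mem (mem_adjoin_simple_self K γ) (IntermediateField.algebraMap_mem _ t))
    have h5 : Module.finrank K K⟮β⟯ ≤ Module.finrank K K⟮γ⟯ := by
      haveI : FiniteDimensional K K⟮γ⟯ := adjoin.finiteDimensional hγi
      exact IntermediateField.finrank_le_of_le_right h4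
    rw [adjoin.finrank hβi, adjoin.finrank hγi] at h5
    exact h5.trans h3

end Pool.Agent.Lib.MP_ca2859_nt.FF
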