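import Pool.Agent.Lib.MP_ca2859_nt.FF.Stm

set_option autoImplicit false

/-!
# G2F: the genus two curve `y² = x (x² - b) (x² + a x + b)`
-/

open Polynomial WithZero IsDedekindDomain NumberField
open Pool.Agent.Lib.MP_ca2859_nt Pool.Agent.Lib.MP_ca2859_nt.GR

namespace Pool.Agent.Lib.MP_ca2859_nt.FF

section G2Floc
variable {K : Type} [Field K] (w : Valuation K ℤᵐ⁰)

private theorem G2F_unit (x : w.valuationSubring) (hx : w (x : K) = 1) : IsUnit x := by
  have hx0 : (x : K) ≠ 0 := by
    intro h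
    rw [h] at hx
    simp at hx
  have hy : (x : K)⁻¹ ∈ w.valuationSubring := by
    rw [Valuation.mem_valuationSubring_iff, map_inv₀, hx]
    simp
  refine IsUnit.of_mul_eq_one ⟨(x : K)⁻¹, hy⟩ ?_
  apply Subtype.ext
  simp [hx0]

private theorem G2F_unit' (x : w.valuationSubring) (hx : IsUnit x) : w (x : K) = 1 := by
  obtain ⟨y, hy⟩ := hx.exists_right_inv
  have h1 : w (x : K) ≤ 1 := x.2
  have h2 : w (y : K) ≤ 1 := y.2
  have h3 : w (x : K) * w (y : K) = 1 := by
    rw [← map_mul]
    have h4 := congrArg (fun z : w.valuationSubring => (z : K)) hy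
    simp only [MulMemClass.coe_mul, OneMemClass.coe_one] at h4
    rw [h4, map_one]
  by_contra hne
  have h4 : w (x : K) < 1 := lt_of_le_of_ne h1 hne
  have h5 : w (x : K) * w (y : K) < 1 := mul_lt_one_of_lt_of_le h4 h2
  rw [h3] at h5
  exact lt_irrefl _ h5

private theorem G2F_discr (F : w.valuationSubring[X]) (f : K[X])
    (hf : F.map w.valuationSubring.subtype = f) (hn : 0 < f.natDegree)
    (hlc : w f.leadingCoeff = 1)
    (hsep : (F.map (IsLocalRing.residue w.valuationSubring)).Separable)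
    (hdeg : (F.map (IsLocalRing.residue w.valuationSubring)).natDegree = f.natDegree) :
    w f.discr = 1 := by
  set G := F.map (IsLocalRing.residue w.valuationSubring) with hG
  have h1 := resultant_deriv (f := f) (natDegree_pos_iff_degree_pos.mp hn)
  set n := f.natDegree with hn'
  set ρ := resultant F (derivative F) n (n - 1) with hρ
  have h2 : resultant f (derivative f) n (n - 1) = w.valuationSubring.subtype ρ := by
    rw [← hf, derivative_map, resultant_map_map]
  have h3 : resultant G (derivative G) n (n - 1) = IsLocalRing.residue w.valuationSubring ρ := by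
    rw [hG, derivative_map, resultant_map_map]
  have hd : (derivative G).natDegree ≤ n - 1 := by
    have := natDegree_derivative_le G
    rwa [hdeg] at this
  have h4 : resultant G (derivative G) n (n - 1) ≠ 0 := by
    obtain ⟨k, hk⟩ := Nat.exists_eq_add_of_le hd
    rw [hk, resultant_add_right_deg _ _ _ _ _ le_rfl]
    have h5 : G.coeff n ≠ 0 := by
      rw [← hdeg, coeff_natDegree]
      intro h
      rw [leadingCoeff_eq_zero] at h
      rw [h] at hdeg
      simp at hdeg
      omega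
    have h6 : resultant G (derivative G) ≠ 0 := resultant_ne_zero _ _ hsep
    rw [hdeg] at h6
    exact mul_ne_zero (pow_ne_zero _ h5) h6
  rw [h3, IsLocalRing.residue_ne_zero_iff_isUnit] at h4
  have h5 := G2F_unit' w ρ h4
  have h6 : w (resultant f (derivative f) n (n - 1)) = 1 := by
    rw [h2]
    exact h5
  rw [h1, map_mul, map_mul, hlc, map_pow, Valuation.map_neg, map_one, one_pow, one_mul,
    one_mul] at h6
  exact h6

end G2Floc

section G2Fspec
variable {F : Type} [Field F]

private theorem G2F_map {R : Type} [CommRing R] (φ : R →+* F) (a b : R) :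
    (X * (X ^ 2 - C b) * (X ^ 2 + C a * X + C b) : R[X]).map φ = fG2 (φ a) (φ b) := by
  simp [fG2]

private theorem G2F_sep (a b : F) (h2 : (2 : F) ≠ 0) (hb : b ≠ 0) (hd : a ^ 2 - 4 * b ≠ 0) :
    (fG2 a b).Separable := by
  unfold fG2
  have hCb : (C b⁻¹ : F[X]) * C b = 1 := by
    rw [← C_mul, inv_mul_cancel₀ hb, C_1]
  have hCd : (C (a ^ 2 - 4 * b)⁻¹ : F[X]) * (C a ^ 2 - 4 * C b) = 1 := by
    have e : (C a ^ 2 - 4 * C b : F[X]) = C (a ^ 2 - 4 * b) := by
      rw [C_sub, C_mul, C_pow, map_ofNat C 4]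
    rw [e, ← C_mul, inv_mul_cancel₀ hd, C_1]
  have s1 : (X : F[X]).Separable := separable_X
  have s2 : (X ^ 2 - C b : F[X]).Separable := by
    apply separable_X_pow_sub_C
    · exact_mod_cast h2
    · exact hb
  have s3 : (X ^ 2 + C a * X + C b : F[X]).Separable := by
    have hder : derivative (X ^ 2 + C a * X + C b : F[X]) = 2 * X + C a := by
      simp only [derivative_add, derivative_X_pow, derivative_mul, derivative_C, derivative_X]
      have hC2 : (C (2 : F) : F[X]) = 2 := map_ofNat C 2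
      simp [hC2]
    refine ⟨-4 * C (a ^ 2 - 4 * b)⁻¹, C (a ^ 2 - 4 * b)⁻¹ * (2 * X + C a), ?_⟩
    rw [hder]
    linear_combination hCd
  have c1 : IsCoprime (X : F[X]) (X ^ 2 - C b) :=
    ⟨C b⁻¹ * X, -C b⁻¹, by linear_combination hCb⟩
  have c2 : IsCoprime (X : F[X]) (X ^ 2 + C a * X + C b) :=
    ⟨-C b⁻¹ * (X + C a), C b⁻¹, by linear_combination hCb⟩
  have c3 : IsCoprime (X ^ 2 - C b : F[X]) (X ^ 2 + C a * X + C b) := by
    refine ⟨-(C b⁻¹ * C (a ^ 2 - 4 * b)⁻¹) * (C a * X - 2 * C b + C a ^ 2),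
      C b⁻¹ * C (a ^ 2 - 4 * b)⁻¹ * (C a * X - 2 * C b), ?_⟩
    linear_combination (C b⁻¹ * C b) * hCd + hCb
  exact (s1.mul s2 c1).mul s3 (c2.mul_left c3)

private theorem G2F_deg (a b : F) : (fG2 a b).natDegree = 5 ∧ (fG2 a b).leadingCoeff = 1 := by
  have m2 : (X ^ 2 - C b : F[X]).Monic := monic_X_pow_sub_C b two_ne_zero
  have d2 : (X ^ 2 - C b : F[X]).natDegree = 2 := natDegree_X_pow_sub_C
  have d3 : (X ^ 2 + C a * X + C b : F[X]).natDegree = 2 := by
    compute_degree!
  have m3 : (X ^ 2 + C a * X + C b : F[X]).Monic := by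
    rw [Monic, leadingCoeff, d3]
    simp
  have m : (fG2 a b).Monic := (monic_X.mul m2).mul m3
  refine ⟨?_, m⟩
  unfold fG2
  rw [(monic_X.mul m2).natDegree_mul m3, monic_X.natDegree_mul m2, natDegree_X, d2, d3]

private theorem G2F_same (a b u : F) (hu : u ≠ 0) :
    SameCurve 2 (fG2 a b) (fG2 (u ^ 2 * a) (u ^ 4 * b)) := by
  refine ⟨(u ^ 2)⁻¹, 0, 0, 1, u ^ 5, ?_, pow_ne_zero _ hu, ?_⟩
  · rw [mul_one, mul_zero, sub_zero]
    exact inv_ne_zero (pow_ne_zero _ hu)
  · intro x _
    simp only [fG2, eval_mul, eval_add, eval_sub, eval_pow, eval_X, eval_C]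
    field_simp
    ring

end G2Fspec

private theorem G2F_good {K : Type} [Field K] [NumberField K] (a b : K)
    (v : HeightOneSpectrum (𝓞 K)) (h2 : v.valuation K (2 : K) = 1)
    (ha : v.valuation K a ≤ 1) (hb : v.valuation K b = 1)
    (hd : v.valuation K (a ^ 2 - 4 * b) = 1) : discExp 2 (fG2 a b) v = 0 := by
  set w := v.valuation K with hw
  set O := w.valuationSubring with hO
  let a' : O := ⟨a, ha⟩
  let b' : O := ⟨b, hb.le⟩
  have ha' : O.subtype a' = a := rfl
  have hb' : O.subtype b' = b := rfl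
  obtain ⟨hn1, hl1⟩ := G2F_deg a b
  have hu2 : IsUnit (2 : O) := G2F_unit w 2 h2
  have hub : IsUnit b' := G2F_unit w b' hb
  have hud : IsUnit (a' ^ 2 - 4 * b' : O) := by
    apply G2F_unit w
    have e : ((a' ^ 2 - 4 * b' : O) : K) = a ^ 2 - 4 * b := by
      push_cast
      rfl
    rw [e]
    exact hd
  have hr : ∀ x : O, IsUnit x → IsLocalRing.residue O x ≠ 0 := fun x hx =>
    (IsLocalRing.residue_ne_zero_iff_isUnit x).mpr hx
  obtain ⟨hn2, hl2⟩ := G2F_deg (IsLocalRing.residue O a') (IsLocalRing.residue O b')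
  have hs2 := G2F_sep (IsLocalRing.residue O a') (IsLocalRing.residue O b')
    (by have h := hr 2 hu2; rwa [map_ofNat] at h) (hr b' hub)
    (by
      have h := hr _ hud
      rwa [map_sub, map_mul, map_pow, map_ofNat] at h)
  set P : O[X] := X * (X ^ 2 - C b') * (X ^ 2 + C a' * X + C b') with hP
  have hm1 : P.map O.subtype = fG2 a b := G2F_map O.subtype a' b'
  have hm2 : P.map (IsLocalRing.residue O) =
      fG2 (IsLocalRing.residue O a') (IsLocalRing.residue O b') :=
    G2F_map (IsLocalRing.residue O) a' b'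
  have hlc : w (fG2 a b).leadingCoeff = 1 := by
    rw [hl1, map_one]
  have hpos : 0 < (fG2 a b).natDegree := by
    rw [hn1]
    norm_num
  have hdisc : w (fG2 a b).discr = 1 :=
    G2F_discr w P _ hm1 hpos hlc (by rw [hm2]; exact hs2) (by rw [hm2, hn2, hn1])
  have heq : w (eqDisc 2 (fG2 a b)) = 1 := by
    unfold eqDisc
    split_ifs
    · rw [map_mul, map_pow, h2, hdisc, one_pow, one_mul]
    · rw [map_mul, map_mul, map_pow, map_pow, h2, hdisc, hlc, one_pow, one_pow, one_mul, one_mul]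
  apply Nat.le_zero.mp
  refine minDiscExp_le _ 2 _ 0 ⟨fG2 a b, 0, ⟨?_, fun i => by simp, by omega, by simp, ?_, ?_⟩,
    ?_⟩
  · intro i
    rw [← hm1, coeff_map]
    exact (P.coeff i).2
  · rw [f0_zero]
    exact Or.inl hn1
  · rw [f0_zero]
    exact sameCurve_refl 2 _
  · rw [f0_zero, heq]
    simp

theorem piece_G2F : S_G2F := by
  intro K _ _ a b hb hd
  refine ⟨⟨G2F_sep a b two_ne_zero hb hd, Or.inl (G2F_deg a b).1⟩, ?_⟩
  rintro v h2 ⟨u, hu, h1, h3, h4⟩
  rw [discExp_same 2 _ _ (by rw [(G2F_deg _ _).1]; norm_num) (by rw [(G2F_deg _ _).1]; norm_num)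
    (G2F_same a b u hu) v]
  exact G2F_good _ _ v h2 h1 h3 h4

end Pool.Agent.Lib.MP_ca2859_nt.FF
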