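import Pool.Agent.Lib.MP_ca2859_nt.FF.Stm

/-!
# Fixed field theorem: normal form of an elliptic curve with a rational point of order two
-/

set_option autoImplicit false

open Polynomial WithZero IsDedekindDomain NumberField
open Pool.Agent.Lib.MP_ca2859_nt Pool.Agent.Lib.MP_ca2859_nt.GR

namespace Pool.Agent.Lib.MP_ca2859_nt.FF

section alg
variable {F : Type} [Field F]

/-- the coefficient `a` of the normal form -/
private def G2N_a (W : WeierstrassCurve F) (x : F) : F := 12 * x + W.b₂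

/-- the coefficient `b` of the normal form -/
private def G2N_b (W : WeierstrassCurve F) (x : F) : F := 8 * (6 * x ^ 2 + W.b₂ * x + W.b₄)

private theorem G2N_c4 (W : WeierstrassCurve F) (x : F) :
    G2N_a W x ^ 2 - 3 * G2N_b W x = W.c₄ := by
  unfold G2N_a G2N_b WeierstrassCurve.c₄
  ring

private theorem G2N_D (W : WeierstrassCurve F) (x : F)
    (h : 4 * x ^ 3 + W.b₂ * x ^ 2 + 2 * W.b₄ * x + W.b₆ = 0) :
    G2N_b W x ^ 2 * (G2N_a W x ^ 2 - 4 * G2N_b W x) = 2 ^ 8 * W.Δ := by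
  unfold G2N_a G2N_b WeierstrassCurve.Δ
  linear_combination ((-27648) * x ^ 3 - 6912 * x ^ 2 * W.b₂ - 13824 * x * W.b₄ +
    64 * W.b₂ ^ 3 - 2304 * W.b₂ * W.b₄ + 6912 * W.b₆) * h + 64 * W.b₂ ^ 2 * W.b_relation

/-- the normal form of an equivalent equation -/
private theorem G2N_chg (W : WeierstrassCurve F) (x : F) (c : WeierstrassCurve.VariableChange F)
    (h : 4 * x ^ 3 + W.b₂ * x ^ 2 + 2 * W.b₄ * x + W.b₆ = 0) :
    ∃ y : F, 4 * y ^ 3 + (c • W).b₂ * y ^ 2 + 2 * (c • W).b₄ * y + (c • W).b₆ = 0 ∧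
      G2N_a (c • W) y = ((c.u⁻¹ : Fˣ) : F) ^ 2 * G2N_a W x ∧
      G2N_b (c • W) y = ((c.u⁻¹ : Fˣ) : F) ^ 4 * G2N_b W x := by
  refine ⟨((c.u⁻¹ : Fˣ) : F) ^ 2 * (x - c.r), ?_, ?_, ?_⟩
  · rw [WeierstrassCurve.variableChange_b₂, WeierstrassCurve.variableChange_b₄,
      WeierstrassCurve.variableChange_b₆]
    linear_combination ((c.u⁻¹ : Fˣ) : F) ^ 6 * h
  · unfold G2N_a
    rw [WeierstrassCurve.variableChange_b₂]
    ring
  · unfold G2N_b
    rw [WeierstrassCurve.variableChange_b₂, WeierstrassCurve.variableChange_b₄]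
    ring

/-- integrality of the quantities `b₂, b₄, b₆` -/
private theorem G2N_int (v : Valuation F ℤᵐ⁰) (W : WeierstrassCurve F) (h : IntegralE v W) :
    v W.b₂ ≤ 1 ∧ v W.b₄ ≤ 1 ∧ v W.b₆ ≤ 1 := by
  obtain ⟨h1, h2, h3, h4, h6⟩ := h
  let W' : WeierstrassCurve v.integer := ⟨⟨W.a₁, h1⟩, ⟨W.a₂, h2⟩, ⟨W.a₃, h3⟩, ⟨W.a₄, h4⟩, ⟨W.a₆, h6⟩⟩
  have e : W'.map v.integer.subtype = W := rfl
  refine ⟨?_, ?_, ?_⟩
  · rw [← e, WeierstrassCurve.map_b₂]
    exact W'.b₂.2
  · rw [← e, WeierstrassCurve.map_b₄]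
    exact W'.b₄.2
  · rw [← e, WeierstrassCurve.map_b₆]
    exact W'.b₆.2

private theorem G2N_mul {v : Valuation F ℤᵐ⁰} {x y : F} (hx : v x ≤ 1) (hy : v y ≤ 1) :
    v (x * y) ≤ 1 := by
  rw [map_mul]
  exact mul_le_one' hx hy

private theorem G2N_pow {v : Valuation F ℤᵐ⁰} {x : F} (hx : v x ≤ 1) (n : ℕ) :
    v (x ^ n) ≤ 1 := by
  rw [map_pow]
  exact pow_le_one' hx n

private theorem G2N_add {v : Valuation F ℤᵐ⁰} {x y : F} (hx : v x ≤ 1) (hy : v y ≤ 1) :
    v (x + y) ≤ 1 := Valuation.map_add_le v hx hy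

private theorem G2N_sub {v : Valuation F ℤᵐ⁰} {x y : F} (hx : v x ≤ 1) (hy : v y ≤ 1) :
    v (x - y) ≤ 1 := Valuation.map_sub_le v hx hy

private theorem G2N_num (v : Valuation F ℤᵐ⁰) (n : ℕ) : v (n : F) ≤ 1 :=
  natCast_mem v.integer n

/-- a root of a polynomial with unit leading coefficient is integral -/
private theorem G2N_root (v : Valuation F ℤᵐ⁰) (h2 : v (2 : F) = 1) (x p q r : F)
    (hp : v p ≤ 1) (hq : v q ≤ 1) (hr : v r ≤ 1)
    (h : 4 * x ^ 3 + p * x ^ 2 + 2 * q * x + r = 0) : v x ≤ 1 := by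
  by_contra hc
  have hx : 1 < v x := not_le.1 hc
  have hx0 : v x ≠ 0 := by
    intro h0
    rw [h0] at hx
    exact not_lt_of_ge zero_le_one hx
  have h4 : v (4 : F) = 1 := by
    have : (4 : F) = 2 * 2 := by norm_num
    rw [this, map_mul, h2, one_mul]
  have e : 4 * x ^ 3 = -(p * x ^ 2 + 2 * q * x + r) := by linear_combination h
  have e1 : v x ^ 3 = v (p * x ^ 2 + 2 * q * x + r) := by
    have := congrArg v e
    rw [map_mul, h4, one_mul, map_pow, Valuation.map_neg] at this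
    exact this
  have hxx : v x ≤ v x ^ 2 := by
    rw [pow_two]
    exact le_mul_of_one_le_left' hx.le
  have h1x : 1 ≤ v x ^ 2 := hx.le.trans hxx
  have e2 : v (p * x ^ 2 + 2 * q * x + r) ≤ v x ^ 2 := by
    refine Valuation.map_add_le v (Valuation.map_add_le v ?_ ?_) (hr.trans h1x)
    · rw [map_mul, map_pow]
      exact mul_le_of_le_one_left' hp
    · rw [map_mul, map_mul, h2, one_mul]
      exact (mul_le_of_le_one_left' hq).trans hxx
  rw [← e1, pow_succ] at e2
  have h3 : v x ≤ 1 := by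
    have hpos : 0 < v x ^ 2 := lt_of_lt_of_le zero_lt_one h1x
    by_contra h5
    have h6 : 1 < v x := not_le.1 h5
    have h7 : v x ^ 2 * 1 < v x ^ 2 * v x := by
      exact mul_lt_mul_of_pos_left h6 hpos
    rw [mul_one] at h7
    exact absurd e2 (not_le.2 h7)
  exact hc h3

end alg

theorem piece_G2N : S_G2N := by
  intro K _ _ W hW hx
  obtain ⟨x, hx⟩ := hx
  have hr : 4 * x ^ 3 + W.b₂ * x ^ 2 + 2 * W.b₄ * x + W.b₆ = 0 := by
    rw [← F6_eval]
    exact hx
  have hD := G2N_D W x hr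
  have h20 : (2 : K) ≠ 0 := two_ne_zero
  have hne : G2N_b W x ^ 2 * (G2N_a W x ^ 2 - 4 * G2N_b W x) ≠ 0 := by
    rw [hD]
    exact mul_ne_zero (pow_ne_zero _ h20) hW
  have hb : G2N_b W x ≠ 0 := by
    intro h0
    apply hne
    rw [h0]
    ring
  refine ⟨G2N_a W x, G2N_b W x, hb, (mul_ne_zero_iff.1 hne).2, ?_, ?_⟩
  · intro v hv h2
    obtain ⟨π, hπ⟩ := v.valuation_exists_uniformizer K
    have hmem := Nat.sInf_mem (s := {k : ℕ | ∃ C : WeierstrassCurve.VariableChange K,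
      IntegralE (v.valuation K) (C • W) ∧ (v.valuation K) (C • W).Δ = exp (-(k : ℤ))})
      (F6_nonempty (v.valuation K) π hπ W hW)
    have hv' : sInf {k : ℕ | ∃ C : WeierstrassCurve.VariableChange K,
      IntegralE (v.valuation K) (C • W) ∧ (v.valuation K) (C • W).Δ = exp (-(k : ℤ))} = 0 := hv
    rw [hv'] at hmem
    obtain ⟨c, hI, hc⟩ := hmem
    have hc1 : (v.valuation K) (c • W).Δ = 1 := by
      rw [hc]
      simp
    obtain ⟨y, hy, ha, hb'⟩ := G2N_chg W x c hr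
    obtain ⟨i2, i4, i6⟩ := G2N_int _ _ hI
    have hyi := G2N_root (v.valuation K) h2 y _ _ _ i2 i4 i6 hy
    have hD' := G2N_D (c • W) y hy
    have hai : (v.valuation K) (G2N_a (c • W) y) ≤ 1 := by
      unfold G2N_a
      exact G2N_add (G2N_mul (by exact_mod_cast G2N_num _ 12) hyi) i2
    have hbi : (v.valuation K) (G2N_b (c • W) y) ≤ 1 := by
      unfold G2N_b
      exact G2N_mul (by exact_mod_cast G2N_num _ 8) (G2N_add (G2N_add
        (G2N_mul (by exact_mod_cast G2N_num _ 6) (G2N_pow hyi 2)) (G2N_mul i2 hyi)) i4)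
    have hdi : (v.valuation K) (G2N_a (c • W) y ^ 2 - 4 * G2N_b (c • W) y) ≤ 1 :=
      G2N_sub (G2N_pow hai 2) (G2N_mul (by exact_mod_cast G2N_num _ 4) hbi)
    have hprod : (v.valuation K) (G2N_b (c • W) y) ^ 2 *
        (v.valuation K) (G2N_a (c • W) y ^ 2 - 4 * G2N_b (c • W) y) = 1 := by
      have := congrArg (v.valuation K) hD'
      rw [map_mul, map_mul, map_pow, map_pow, h2, one_pow, one_mul, hc1] at this
      exact this
    have hb1 : (v.valuation K) (G2N_b (c • W) y) = 1 := by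
      refine le_antisymm hbi ?_
      have h5 : (v.valuation K) (G2N_b (c • W) y) ^ 2 *
        (v.valuation K) (G2N_a (c • W) y ^ 2 - 4 * G2N_b (c • W) y) ≤
          (v.valuation K) (G2N_b (c • W) y) := by
        calc _ ≤ (v.valuation K) (G2N_b (c • W) y) ^ 2 := mul_le_of_le_one_right' hdi
          _ ≤ _ := by
            rw [pow_two]
            exact mul_le_of_le_one_left' hbi
      rw [hprod] at h5
      exact h5
    have hd1 : (v.valuation K) (G2N_a (c • W) y ^ 2 - 4 * G2N_b (c • W) y) = 1 := by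
      rw [hb1, one_pow, one_mul] at hprod
      exact hprod
    rw [ha] at hai hd1
    rw [hb'] at hb1 hd1
    exact ⟨((c.u⁻¹ : Kˣ) : K), Units.ne_zero _, hai, hb1, hd1⟩
  · intro v J hJ h
    obtain ⟨π, hπ⟩ := v.valuation_exists_uniformizer K
    refine minDiscExpE_le_j (v.valuation K) π hπ W hW J hJ ?_
    rw [G2N_c4, hD] at h
    rcases h with h | h
    · exact Or.inl h
    · by_cases h0 : W.c₄ = 0
      · exact Or.inl h0
      · right
        have e16 : (16 : K) = 2 ^ 4 := by norm_num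
        rw [e16, ord_mul (pow_ne_zero _ h20) (mul_ne_zero (pow_ne_zero _ h20) hW),
          ord_mul (pow_ne_zero _ h20) hW, ord_mul (pow_ne_zero _ h20) h0, ord_pow, ord_pow] at h
        push_cast at h
        linarith

end Pool.Agent.Lib.MP_ca2859_nt.FF
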