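import Pool.Agent.Lib.MP_ca2859_nt.FF.Stm

/-!
# GAP: a cross ratio of valuation `M` gives a splitting with all cross ratios `≥ M / (n - 3)`
-/

open Polynomial WithZero IsDedekindDomain NumberField
open Pool.Agent.Lib.MP_ca2859_nt Pool.Agent.Lib.MP_ca2859_nt.GR

namespace Pool.Agent.Lib.MP_ca2859_nt.FF

section
variable {L : Type} [Field L] {w : Valuation L ℤᵐ⁰}

private theorem GAP_sub_ge {x y : L} (hx : x ≠ 0) (hy : y ≠ 0) (hxy : x - y ≠ 0) :
    min (ord w x) (ord w y) ≤ ord w (x - y) := by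
  have h := Valuation.map_sub w x y
  rw [w_eq_exp hx, w_eq_exp hy, w_eq_exp hxy] at h
  rcases le_max_iff.mp h with h1 | h1
  · have h2 := exp_le_exp.mp h1
    exact (min_le_left _ _).trans (by omega)
  · have h2 := exp_le_exp.mp h1
    exact (min_le_right _ _).trans (by omega)

private theorem GAP_sub_eq {x y : L} (hx : x ≠ 0) (hy : y ≠ 0) (hxy : x - y ≠ 0)
    (h : ord w x < ord w y) : ord w (x - y) = ord w x := by
  have h1 := GAP_sub_ge (w := w) hx hy hxy
  have h2 : min (ord w y) (ord w (x - y)) ≤ ord w x := by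
    have h3 : -((-y) - (x - y)) = x := by ring
    have hny : -y ≠ 0 := neg_ne_zero.mpr hy
    have hne : (-y) - (x - y) ≠ 0 := by
      intro h4
      apply hx
      rw [← h3, h4, neg_zero]
    have h5 := GAP_sub_ge (w := w) hny hxy hne
    have h6 : ord w (-y - (x - y)) = ord w x := by
      have h7 : (-y - (x - y)) = -x := by ring
      rw [h7, ord, ord, Valuation.map_neg]
    have h8 : ord w (-y) = ord w y := by rw [ord, ord, Valuation.map_neg]
    rwa [h6, h8] at h5
  rw [min_eq_left h.le] at h1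
  rcases min_le_iff.mp h2 with h3 | h3
  · omega
  · omega

end

theorem piece_GAP (hI : S_GAPI) : S_GAP := by
  intro L _ w n α hα i j k l hij hik hil hjk hjl hkl M hM hcr
  classical
  -- the orders of the differences
  obtain ⟨D, hD⟩ : ∃ D : Fin n → Fin n → ℤ, ∀ x y, D x y = ord w (α x - α y) :=
    ⟨fun x y => ord w (α x - α y), fun _ _ => rfl⟩
  have hne : ∀ x y, x ≠ y → α x - α y ≠ 0 := fun x y h => sub_ne_zero.mpr fun h' => h (hα h')
  have hsymm : ∀ x y, D x y = D y x := by
    intro x y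
    rw [hD, hD, ord, ord, ← neg_sub, Valuation.map_neg]
  have hmul : ∀ x y x' y', x ≠ y → x' ≠ y' →
      ord w ((α x - α y) * (α x' - α y')) = D x y + D x' y' := by
    intro x y x' y' h h'
    rw [ord_mul (hne x y h) (hne x' y' h'), hD, hD]
  rw [hmul i k j l hik hjl, hmul i j k l hij hkl] at hcr
  -- the ultrametric inequality for four different indices
  have hpl : ∀ a b c d, α a - α b ≠ 0 → α c - α d ≠ 0 → α a - α c ≠ 0 → α b - α d ≠ 0 →
      α a - α d ≠ 0 → α b - α c ≠ 0 →
      min (D a c + D b d) (D a d + D b c) ≤ D a b + D c d ∧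
      (D a c + D b d < D a d + D b c → D a b + D c d = D a c + D b d) := by
    intro a b c d h1 h2 h3 h4 h5 h6
    have e : (α a - α b) * (α c - α d) =
        (α a - α c) * (α b - α d) - (α a - α d) * (α b - α c) := by ring
    have hn : (α a - α c) * (α b - α d) - (α a - α d) * (α b - α c) ≠ 0 := by
      intro h
      rw [h] at e
      exact mul_ne_zero h1 h2 e
    have e1 : D a b + D c d =
        ord w ((α a - α c) * (α b - α d) - (α a - α d) * (α b - α c)) := by
      rw [hD, hD, ← ord_mul h1 h2, e]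
    have e2 : D a c + D b d = ord w ((α a - α c) * (α b - α d)) := by
      rw [hD, hD, ← ord_mul h3 h4]
    have e3 : D a d + D b c = ord w ((α a - α d) * (α b - α c)) := by
      rw [hD, hD, ← ord_mul h5 h6]
    rw [e1, e2, e3]
    exact ⟨GAP_sub_ge (mul_ne_zero h3 h4) (mul_ne_zero h5 h6) hn,
      GAP_sub_eq (mul_ne_zero h3 h4) (mul_ne_zero h5 h6) hn⟩
  -- `ψ`
  obtain ⟨ψ, hψ⟩ : ∃ ψ : Fin n → ℤ, ∀ x, ψ x = D x i - D x j := ⟨fun x => D x i - D x j, fun _ => rfl⟩
  have hkey : ψ k - ψ l = M := by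
    have h1 := (hpl i l j k (hne _ _ hil) (hne _ _ hjk) (hne _ _ hij) (hne _ _ hkl.symm)
      (hne _ _ hik) (hne _ _ hjl.symm)).2 (by
        have := hsymm k l; have := hsymm l k; have := hsymm j l
        omega)
    rw [hψ, hψ]
    have := hsymm k i; have := hsymm k j; have := hsymm l i; have := hsymm l j
    have := hsymm l k
    omega
  -- the gap
  let U : Finset (Fin n) := Finset.univ.filter fun x => x ≠ i ∧ x ≠ j
  have hU : ∀ x, x ∈ U ↔ x ≠ i ∧ x ≠ j := fun x => by simp [U]
  have hVk : ψ k ∈ U.image ψ := Finset.mem_image_of_mem _ ((hU k).mpr ⟨hik.symm, hjk.symm⟩)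
  have hVl : ψ l ∈ U.image ψ := Finset.mem_image_of_mem _ ((hU l).mpr ⟨hil.symm, hjl.symm⟩)
  obtain ⟨t, t', h1, h2, h3, h4, h5⟩ := hI (U.image ψ) (ψ l) (ψ k) hVl hVk (by omega)
  have hcU : U.card + 2 ≤ n := by
    have h6 : (insert i (insert j U)).card ≤ n := by
      calc (insert i (insert j U)).card ≤ (Finset.univ : Finset (Fin n)).card :=
            Finset.card_le_card (Finset.subset_univ _)
        _ = n := by simp
    rw [Finset.card_insert_of_notMem (by simp [U, hij]),
      Finset.card_insert_of_notMem (by simp [U])] at h6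
    omega
  have hcV : ((U.image ψ).card : ℤ) ≤ (n : ℤ) - 2 := by
    have h6 : (U.image ψ).card ≤ U.card := Finset.card_image_le
    have h7 : (U.image ψ).card + 2 ≤ n := by omega
    have h8 : ((U.image ψ).card : ℤ) + 2 ≤ (n : ℤ) := by exact_mod_cast h7
    linarith
  have hMt : M ≤ ((n : ℤ) - 3) * (t' - t) := by
    have h6 : (((U.image ψ).card : ℤ) - 1) * (t' - t) ≤ ((n : ℤ) - 3) * (t' - t) :=
      mul_le_mul_of_nonneg_right (by linarith) (by omega)
    have h7 : ψ k - ψ l ≤ (((U.image ψ).card : ℤ) - 1) * (t' - t) := h5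
    linarith
  have hdich : ∀ x, x ≠ i → x ≠ j → ψ x ≤ t ∨ t' ≤ ψ x := fun x hxi hxj =>
    h4 (ψ x) (Finset.mem_image_of_mem _ ((hU x).mpr ⟨hxi, hxj⟩))
  have hn3 : (0 : ℤ) < (n : ℤ) - 3 := by
    by_contra h6
    have h7 : ((n : ℤ) - 3) * (t' - t) ≤ 0 := mul_nonpos_of_nonpos_of_nonneg (by omega) (by omega)
    omega
  -- the set
  let S : Finset (Fin n) := Finset.univ.filter fun x => x = i ∨ (x ≠ i ∧ x ≠ j ∧ t' ≤ ψ x)
  have hS : ∀ x, x ∈ S ↔ x = i ∨ (x ≠ i ∧ x ≠ j ∧ t' ≤ ψ x) := fun x => by simp [S]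
  have hiS : i ∈ S := (hS i).mpr (Or.inl rfl)
  have hjS : j ∉ S := by
    intro h
    rcases (hS j).mp h with h6 | h6
    · exact hij h6.symm
    · exact h6.2.1 rfl
  -- `E x y = ord (z x - z y)`
  have hE1 : ∀ x y, x ≠ y → x ≠ i → x ≠ j → y ≠ i → y ≠ j →
      min (ψ x) (ψ y) ≤ D x y + D i j - D x j - D y j ∧
      (ψ y < ψ x → D x y + D i j - D x j - D y j = ψ y) := by
    intro x y hxy hxi hxj hyi hyj
    obtain ⟨a1, -⟩ := hpl x y i j (hne _ _ hxy) (hne _ _ hij) (hne _ _ hxi) (hne _ _ hyj)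
      (hne _ _ hxj) (hne _ _ hyi)
    obtain ⟨-, b2⟩ := hpl y x i j (hne _ _ hxy.symm) (hne _ _ hij) (hne _ _ hyi) (hne _ _ hxj)
      (hne _ _ hyj) (hne _ _ hxi)
    have hs := hsymm x y
    rw [hψ, hψ]
    constructor
    · rcases min_le_iff.mp a1 with h | h
      · exact (min_le_left _ _).trans (by omega)
      · exact (min_le_right _ _).trans (by omega)
    · intro h
      have := b2 (by omega)
      omega
  -- bounds
  have hin : ∀ x ∈ S, x ≠ i → x ≠ j ∧ t' ≤ ψ x := by
    intro x hx hxi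
    rcases (hS x).mp hx with h6 | h6
    · exact absurd h6 hxi
    · exact h6.2
  have hout : ∀ x, x ∉ S → x ≠ i ∧ (x ≠ j → ψ x ≤ t) := by
    intro x hx
    have hxi : x ≠ i := fun h => hx (h ▸ hiS)
    refine ⟨hxi, fun hxj => ?_⟩
    rcases hdich x hxi hxj with h6 | h6
    · exact h6
    · exact absurd ((hS x).mpr (Or.inr ⟨hxi, hxj, h6⟩)) hx
  have hSj : ∀ x ∈ S, x ≠ j := fun x hx h => hjS (h ▸ hx)
  -- two elements of `S`
  have hA : ∀ x ∈ S, ∀ y ∈ S, x ≠ y → t' ≤ D x y + D i j - D x j - D y j := by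
    intro x hx y hy hxy
    by_cases hxi : x = i
    · have hyi : y ≠ i := fun h => hxy (hxi.trans h.symm)
      obtain ⟨-, h7⟩ := hin y hy hyi
      rw [hψ] at h7
      have := hsymm y i
      rw [hxi]
      omega
    · obtain ⟨h8, h9⟩ := hin x hx hxi
      by_cases hyi : y = i
      · rw [hψ] at h9
        rw [hyi]
        omega
      · obtain ⟨h10, h11⟩ := hin y hy hyi
        have := (hE1 x y hxy hxi h8 hyi h10).1
        have h12 : t' ≤ min (ψ x) (ψ y) := le_min h9 h11
        omega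
  -- an element of `S` and one outside
  have hB : ∀ x ∈ S, ∀ y, y ∉ S → y ≠ j → D x y + D i j - D x j - D y j = ψ y := by
    intro x hx y hy hyj
    obtain ⟨hyi, h7⟩ := hout y hy
    have h8 := h7 hyj
    by_cases hxi : x = i
    · rw [hψ]
      have := hsymm y i
      rw [hxi]
      omega
    · obtain ⟨h9, h10⟩ := hin x hx hxi
      exact (hE1 x y (fun h => hy (h ▸ hx)) hxi h9 hyi hyj).2 (by omega)
  refine ⟨S, hiS, ?_, hjS, ?_, ?_⟩
  · exact (hS k).mpr (Or.inr ⟨hik.symm, hjk.symm, h3⟩)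
  · intro h
    have h6 := (hin l h hil.symm).2
    omega
  · intro i' hi' k' hk' hik' j' hj' l' hl' hjl'
    have hi'j' : i' ≠ j' := fun h => hj' (h ▸ hi')
    have hk'l' : k' ≠ l' := fun h => hl' (h ▸ hk')
    rw [hmul i' k' j' l' hik' hjl', hmul i' j' k' l' hi'j' hk'l']
    have hmain : t' - t ≤ D i' k' + D j' l' - (D i' j' + D k' l') := by
      have a1 := hA i' hi' k' hk' hik'
      by_cases hjj : j' = j
      · have hlj : l' ≠ j := fun h => hjl' (hjj.trans h.symm)
        have b1 := hB k' hk' l' hl' hlj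
        have b2 := (hout l' hl').2 hlj
        have := hsymm j l'
        rw [hjj]
        omega
      · have c1 := hB i' hi' j' hj' hjj
        have c2 := (hout j' hj').2 hjj
        by_cases hlj : l' = j
        · rw [hlj]
          omega
        · have b1 := hB k' hk' l' hl' hlj
          have b2 := (hout l' hl').2 hlj
          have d1 := (hE1 j' l' hjl' (hout j' hj').1 hjj (hout l' hl').1 hlj).1
          rcases min_le_iff.mp d1 with h | h
          · omega
          · omega
    calc M ≤ ((n : ℤ) - 3) * (t' - t) := hMt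
      _ ≤ ((n : ℤ) - 3) * (D i' k' + D j' l' - (D i' j' + D k' l')) :=
          mul_le_mul_of_nonneg_left hmain hn3.le

end Pool.Agent.Lib.MP_ca2859_nt.FF
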