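import Pool.Agent.Lib.MP_ca2859_nt.FF.Stm

/-!
# MP_ca2859_nt, project FF: piece GAPI, the pigeonhole principle for a finite set of integers
-/

set_option autoImplicit false

namespace Pool.Agent.Lib.MP_ca2859_nt.FF

private theorem gapi_aux (V : Finset ℤ) (b : ℤ) (hb : b ∈ V) : ∀ (k : ℕ) (a : ℤ), a ∈ V → a < b →
    (V.filter fun x => a < x ∧ x ≤ b).card = k →
    ∃ t t' : ℤ, a ≤ t ∧ t < t' ∧ t' ≤ b ∧ (∀ x ∈ V, x ≤ t ∨ t' ≤ x) ∧
      b - a ≤ (k : ℤ) * (t' - t) := by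
  intro k
  induction k using Nat.strong_induction_on with
  | _ k ih =>
  intro a _ hab hk
  have hbF : b ∈ V.filter fun x => a < x ∧ x ≤ b := Finset.mem_filter.2 ⟨hb, hab, le_rfl⟩
  have hne : (V.filter fun x => a < x ∧ x ≤ b).Nonempty := ⟨b, hbF⟩
  obtain ⟨c, hc, hmin⟩ := Finset.exists_min_image (V.filter fun x => a < x ∧ x ≤ b) id hne
  obtain ⟨hcV, hac, hcb⟩ := Finset.mem_filter.1 hc
  have hgap : ∀ x ∈ V, x ≤ a ∨ c ≤ x := by
    intro x hx
    by_cases h1 : x ≤ a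
    · exact Or.inl h1
    · right
      by_cases h2 : x ≤ b
      · exact hmin x (Finset.mem_filter.2 ⟨hx, not_le.1 h1, h2⟩)
      · exact hcb.trans (le_of_lt (not_le.1 h2))
  rcases hcb.lt_or_eq with hlt | heq
  · have hsub : (V.filter fun x => c < x ∧ x ≤ b).card < k := by
      rw [← hk]
      apply Finset.card_lt_card
      refine ⟨fun x hx => ?_, fun h => ?_⟩
      · obtain ⟨h1, h2, h3⟩ := Finset.mem_filter.1 hx
        exact Finset.mem_filter.2 ⟨h1, hac.trans h2, h3⟩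
      · exact lt_irrefl c (Finset.mem_filter.1 (h hc)).2.1
    obtain ⟨t, t', h1, h2, h3, h4, h5⟩ := ih _ hsub c hcV hlt rfl
    have hk' : ((V.filter fun x => c < x ∧ x ≤ b).card : ℤ) + 1 ≤ (k : ℤ) := by exact_mod_cast hsub
    by_cases hct : c - a ≤ t' - t
    · refine ⟨t, t', hac.le.trans h1, h2, h3, h4, ?_⟩
      nlinarith
    · refine ⟨a, c, le_rfl, hac, hcb, hgap, ?_⟩
      nlinarith
  · refine ⟨a, b, le_rfl, hab, le_rfl, ?_, ?_⟩
    · intro x hx
      rw [← heq]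
      exact hgap x hx
    · have hk1 : (1 : ℤ) ≤ (k : ℤ) := by
        have : 0 < k := by
          rw [← hk]
          exact Finset.card_pos.2 hne
        exact_mod_cast this
      nlinarith

theorem piece_GAPI : S_GAPI := by
  intro V a b ha hb hab
  obtain ⟨t, t', h1, h2, h3, h4, h5⟩ := gapi_aux V b hb _ a ha hab rfl
  refine ⟨t, t', h1, h2, h3, h4, ?_⟩
  have hlt : (V.filter fun x => a < x ∧ x ≤ b).card < V.card := by
    apply Finset.card_lt_card
    refine ⟨Finset.filter_subset _ _, fun h => ?_⟩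
    exact lt_irrefl a (Finset.mem_filter.1 (h ha)).2.1
  have hle : ((V.filter fun x => a < x ∧ x ≤ b).card : ℤ) ≤ (V.card : ℤ) - 1 := by
    have : ((V.filter fun x => a < x ∧ x ≤ b).card : ℤ) + 1 ≤ (V.card : ℤ) := by exact_mod_cast hlt
    linarith
  nlinarith

end Pool.Agent.Lib.MP_ca2859_nt.FF
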