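import Pool.Agent.Lib.MP_ca2859_nt.FF.Stm

/-!
# GLOB: parity adjustment
-/

open Polynomial WithZero IsDedekindDomain NumberField
open Pool.Agent.Lib.MP_ca2859_nt Pool.Agent.Lib.MP_ca2859_nt.GR

namespace Pool.Agent.Lib.MP_ca2859_nt.FF

theorem piece_GLOB (hTW : S_TW) : S_GLOB := by
  intro K _ _ P B hm hfin
  classical
  choose! m hm using hm
  obtain ⟨e, he, J, hJ, hJ2⟩ := hTW K (hfin.toFinset.filter fun v => v ∉ B ∧ m v % 2 = 1)
  refine ⟨e, he, J, hJ, fun v hvB hvJ => ?_⟩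
  obtain ⟨h1, h2⟩ := hJ2 v hvJ
  by_cases hv : ∀ e : K, e ≠ 0 → (∃ k : ℤ, ord (v.valuation K) e = 2 * k) → P e v
  · apply hv e he
    have : v ∉ hfin.toFinset.filter fun v => v ∉ B ∧ m v % 2 = 1 := by
      intro hmem
      have := (Finset.mem_filter.1 hmem).1
      rw [Set.Finite.mem_toFinset] at this
      exact this hv
    exact ⟨0, by rw [h2 this]; rfl⟩
  · have hvf : v ∈ hfin.toFinset := by
      rw [Set.Finite.mem_toFinset]
      exact hv
    apply hm v hvB e he
    rcases Int.emod_two_eq_zero_or_one (m v) with h0 | h0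
    · have : v ∉ hfin.toFinset.filter fun v => v ∉ B ∧ m v % 2 = 1 := by
        intro hmem
        have := (Finset.mem_filter.1 hmem).2.2
        omega
      refine ⟨-(m v / 2), ?_⟩
      rw [h2 this]
      omega
    · have : v ∈ hfin.toFinset.filter fun v => v ∉ B ∧ m v % 2 = 1 :=
        Finset.mem_filter.2 ⟨hvf, hvB, h0⟩
      refine ⟨-(m v / 2), ?_⟩
      rw [h1 this]
      omega

end Pool.Agent.Lib.MP_ca2859_nt.FF
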