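import Pool.Agent.Lib.MP_ca2859_nt.FF.Stm

/-!
# Fixed field theorem, piece LOC4: good reduction of the twisted Jacobian of a quartic factor
-/

open Polynomial WithZero IsDedekindDomain NumberField
open Pool.Agent.Lib.MP_ca2859_nt Pool.Agent.Lib.MP_ca2859_nt.GR

namespace Pool.Agent.Lib.MP_ca2859_nt.FF

/-- the curve with the cubic resolvent of a quartic with the coefficients `A0, ..., A4`, twisted -/
private noncomputable def LOC4_W {K : Type} [Field K] (A0 A1 A2 A3 A4 ε : K) : WeierstrassCurve K :=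
  ⟨0, -(ε * A2), 0, ε ^ 2 * (A1 * A3 - 4 * A0 * A4),
    -(ε ^ 3 * (A0 * A3 ^ 2 + A1 ^ 2 * A4 - 4 * A0 * A2 * A4))⟩

private lemma LOC4_disc {L : Type} [Field L] (κ s0 s1 s2 s3 ε : L) :
    (LOC4_W κ (κ * -(s0 + s1 + s2 + s3)) (κ * (s0 * s1 + s0 * s2 + s0 * s3 + s1 * s2 + s1 * s3 +
      s2 * s3)) (κ * -(s0 * s1 * s2 + s0 * s1 * s3 + s0 * s2 * s3 + s1 * s2 * s3))
      (κ * (s0 * s1 * s2 * s3)) ε).Δ =
    16 * ε ^ 6 * ((κ * ((s0 - s3) * (s1 - s2))) * (κ * ((s0 - s2) * (s1 - s3))) *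
      (κ * ((s0 - s1) * (s2 - s3)))) ^ 2 := by
  simp only [LOC4_W, WeierstrassCurve.Δ, WeierstrassCurve.b₂, WeierstrassCurve.b₄,
    WeierstrassCurve.b₆, WeierstrassCurve.b₈]
  ring

/-- the change of variables -/
private lemma LOC4_change {K : Type} [Field K] (q : K[X]) (e α₀ ρ κ u ε : K) (hρ : ρ ≠ 0)
    (hu : u ≠ 0) (he : e = u ^ 2 * ε * κ / ρ ^ 2) :
    (⟨Units.mk0 u hu, -(e * (α₀ * q.coeff 3 + 2 * α₀ ^ 2)), 0, 0⟩ :
      WeierstrassCurve.VariableChange K) • EQ q e =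
    LOC4_W κ (κ * ((q.coeff 3 + 4 * α₀) / ρ))
      (κ * ((q.coeff 2 + 3 * α₀ * q.coeff 3 + 6 * α₀ ^ 2) / ρ ^ 2))
      (κ * ((q.coeff 1 + 2 * α₀ * q.coeff 2 + 3 * α₀ ^ 2 * q.coeff 3 + 4 * α₀ ^ 3) / ρ ^ 3))
      (κ * ((q.coeff 0 + α₀ * q.coeff 1 + α₀ ^ 2 * q.coeff 2 + α₀ ^ 3 * q.coeff 3 + α₀ ^ 4) /
        ρ ^ 4)) ε := by
  rw [he]
  apply WeierstrassCurve.ext
  · simp [LOC4_W, EQ, WeierstrassCurve.variableChange_def]
  · simp only [LOC4_W, EQ, WeierstrassCurve.variableChange_def, Units.val_inv_eq_inv_val,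
      Units.val_mk0]
    field_simp
    ring
  · simp [LOC4_W, EQ, WeierstrassCurve.variableChange_def]
  · simp only [LOC4_W, EQ, WeierstrassCurve.variableChange_def, Units.val_inv_eq_inv_val,
      Units.val_mk0]
    field_simp
    ring
  · simp only [LOC4_W, EQ, WeierstrassCurve.variableChange_def, Units.val_inv_eq_inv_val,
      Units.val_mk0]
    field_simp
    ring

/-- the monic quartic with given coefficients -/
private noncomputable def LOC4_p {K : Type} [Field K] (P1 P2 P3 P4 : K) : K[X] :=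
  X ^ 4 + C P1 * X ^ 3 + C P2 * X ^ 2 + C P3 * X + C P4

private lemma LOC4_coeff {K : Type} [Field K] (P1 P2 P3 P4 : K) :
    (LOC4_p P1 P2 P3 P4).coeff 4 = 1 ∧ (LOC4_p P1 P2 P3 P4).coeff 3 = P1 ∧
    (LOC4_p P1 P2 P3 P4).coeff 2 = P2 ∧ (LOC4_p P1 P2 P3 P4).coeff 1 = P3 ∧
    (LOC4_p P1 P2 P3 P4).coeff 0 = P4 ∧ ∀ i, 5 ≤ i → (LOC4_p P1 P2 P3 P4).coeff i = 0 := by
  refine ⟨?_, ?_, ?_, ?_, ?_, ?_⟩
  · simp [LOC4_p, coeff_X_pow]
  · simp [LOC4_p, coeff_X_pow]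
  · simp [LOC4_p, coeff_X_pow]
  · simp [LOC4_p, coeff_X_pow]
  · simp [LOC4_p]
  · intro i hi
    apply coeff_eq_zero_of_natDegree_lt
    have : (LOC4_p P1 P2 P3 P4).natDegree ≤ 4 := by
      unfold LOC4_p
      compute_degree
    omega

private lemma LOC4_map {K L : Type} [Field K] [Field L] (φ : K →+* L) (P1 P2 P3 P4 : K)
    (s : Fin 4 → L) (h1 : φ P1 = -(s 0 + s 1 + s 2 + s 3))
    (h2 : φ P2 = s 0 * s 1 + s 0 * s 2 + s 0 * s 3 + s 1 * s 2 + s 1 * s 3 + s 2 * s 3)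
    (h3 : φ P3 = -(s 0 * s 1 * s 2 + s 0 * s 1 * s 3 + s 0 * s 2 * s 3 + s 1 * s 2 * s 3))
    (h4 : φ P4 = s 0 * s 1 * s 2 * s 3) :
    (LOC4_p P1 P2 P3 P4).map φ = ∏ j, (X - C (s j)) := by
  unfold LOC4_p
  simp only [Polynomial.map_add, Polynomial.map_mul, Polynomial.map_pow, Polynomial.map_X,
    Polynomial.map_C, h1, h2, h3, h4, Fin.prod_univ_four, C_add, C_mul, C_neg]
  ring

private lemma LOC4_prod {L : Type} [Field L] (s : Fin 4 → L) :
    ∏ j, (X - C (s j)) = LOC4_p (-(s 0 + s 1 + s 2 + s 3))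
      (s 0 * s 1 + s 0 * s 2 + s 0 * s 3 + s 1 * s 2 + s 1 * s 3 + s 2 * s 3)
      (-(s 0 * s 1 * s 2 + s 0 * s 1 * s 3 + s 0 * s 2 * s 3 + s 1 * s 2 * s 3))
      (s 0 * s 1 * s 2 * s 3) := by
  unfold LOC4_p
  simp only [Fin.prod_univ_four, C_add, C_mul, C_neg]
  ring

/-- the normalising factor -/
private lemma LOC4_kap {K L : Type} [Field K] [Field L] (φ : K →+* L) (v : Valuation K ℤᵐ⁰)
    (w : Valuation L ℤᵐ⁰) (E : ℕ) (hvw : ∀ x, w (φ x) = v x ^ E)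
    (P1 P2 P3 P4 : K) (s : Fin 4 → L)
    (hmap : (LOC4_p P1 P2 P3 P4).map φ = ∏ j, (X - C (s j))) :
    ∃ κ : K, κ ≠ 0 ∧ w (φ κ) * ∏ j, max 1 (w (s j)) = 1 ∧
      v κ ≤ 1 ∧ v (κ * P1) ≤ 1 ∧ v (κ * P2) ≤ 1 ∧ v (κ * P3) ≤ 1 ∧ v (κ * P4) ≤ 1 := by
  obtain ⟨c4, c3, c2, c1, c0, c5⟩ := LOC4_coeff P1 P2 P3 P4
  obtain ⟨i0, hi0, hmax⟩ := Finset.exists_max_image (Finset.range 5)
    (fun i => v ((LOC4_p P1 P2 P3 P4).coeff i)) ⟨0, by simp⟩
  set p := LOC4_p P1 P2 P3 P4 with hp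
  have h1 : 1 ≤ v (p.coeff i0) := by
    have := hmax 4 (by simp)
    rw [c4, map_one] at this
    exact this
  have hne : p.coeff i0 ≠ 0 := by
    intro h0
    rw [h0, map_zero] at h1
    exact absurd h1 (by simp)
  have hv0 : v (p.coeff i0) ≠ 0 := (Valuation.ne_zero_iff _).2 hne
  have hall : ∀ i, v ((p.coeff i0)⁻¹ * p.coeff i) ≤ 1 := by
    intro i
    rw [map_mul, map_inv₀]
    rcases Nat.lt_or_ge i 5 with h | h
    · have := hmax i (by simpa using h)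
      calc (v (p.coeff i0))⁻¹ * v (p.coeff i) ≤ (v (p.coeff i0))⁻¹ * v (p.coeff i0) :=
            mul_le_mul' le_rfl this
        _ = 1 := inv_mul_cancel₀ hv0
    · rw [c5 i h, map_zero, mul_zero]
      exact zero_le_one
  refine ⟨(p.coeff i0)⁻¹, inv_ne_zero hne, ?_, ?_, ?_, ?_, ?_, ?_⟩
  · apply le_antisymm
    · apply gauss_full
      intro i
      rw [← hmap, coeff_C_mul, coeff_map, ← map_mul, hvw]
      exact pow_le_one' (hall i) _
    · have hCB : CB w (∏ j, max 1 (w (s j))) (∏ j, (X - C (s j))) := by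
        have hj : ∀ j, CB w (max 1 (w (s j))) (X - C (s j)) := fun j =>
          (CB_X.mono (le_max_left _ _)).sub (CB_C (le_max_right _ _))
        rw [Fin.prod_univ_four, Fin.prod_univ_four]
        exact ((((hj 0).mul (hj 1)).mul (hj 2)).mul (hj 3))
      have h2 := hCB i0
      rw [← hmap, coeff_map] at h2
      have h3 : w (φ (p.coeff i0)) ≠ 0 := by
        rw [hvw]
        exact pow_ne_zero _ hv0
      calc (1 : ℤᵐ⁰) = w (φ (p.coeff i0)⁻¹) * w (φ (p.coeff i0)) := by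
            rw [map_inv₀, map_inv₀, inv_mul_cancel₀ h3]
        _ ≤ w (φ (p.coeff i0)⁻¹) * ∏ j, max 1 (w (s j)) := mul_le_mul' le_rfl h2
  · have := hall 4
    rwa [c4, mul_one] at this
  · have := hall 3
    rwa [c3] at this
  · have := hall 2
    rwa [c2] at this
  · have := hall 1
    rwa [c1] at this
  · have := hall 0
    rwa [c0] at this

private lemma LOC4_int {K : Type} [Field K] (v : Valuation K ℤᵐ⁰) (A0 A1 A2 A3 A4 ε : K)
    (h0 : v A0 ≤ 1) (h1 : v A1 ≤ 1) (h2 : v A2 ≤ 1) (h3 : v A3 ≤ 1) (h4 : v A4 ≤ 1)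
    (hε : v ε ≤ 1) : IntegralE v (LOC4_W A0 A1 A2 A3 A4 ε) := by
  have hn : v (4 : K) ≤ 1 := by
    have := natCast_le_one v 4
    exact_mod_cast this
  have e0 : A0 ∈ v.integer := h0
  have e1 : A1 ∈ v.integer := h1
  have e2 : A2 ∈ v.integer := h2
  have e3 : A3 ∈ v.integer := h3
  have e4 : A4 ∈ v.integer := h4
  have e5 : ε ∈ v.integer := hε
  have e6 : (4 : K) ∈ v.integer := hn
  refine ⟨?_, ?_, ?_, ?_, ?_⟩
  · show v (0 : K) ≤ 1
    simp
  · show -(ε * A2) ∈ v.integer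
    exact neg_mem (mul_mem e5 e2)
  · show v (0 : K) ≤ 1
    simp
  · show ε ^ 2 * (A1 * A3 - 4 * A0 * A4) ∈ v.integer
    exact mul_mem (pow_mem e5 2) (sub_mem (mul_mem e1 e3) (mul_mem (mul_mem e6 e0) e4))
  · show -(ε ^ 3 * (A0 * A3 ^ 2 + A1 ^ 2 * A4 - 4 * A0 * A2 * A4)) ∈ v.integer
    exact neg_mem (mul_mem (pow_mem e5 3) (sub_mem (add_mem (mul_mem e0 (pow_mem e3 2))
      (mul_mem (pow_mem e1 2) e4)) (mul_mem (mul_mem (mul_mem e6 e0) e2) e4)))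

private lemma LOC4_W_map {K L : Type} [Field K] [Field L] (φ : K →+* L)
    (A0 A1 A2 A3 A4 ε : K) : φ (LOC4_W A0 A1 A2 A3 A4 ε).Δ =
      (LOC4_W (φ A0) (φ A1) (φ A2) (φ A3) (φ A4) (φ ε)).Δ := by
  simp only [LOC4_W, WeierstrassCurve.Δ, WeierstrassCurve.b₂, WeierstrassCurve.b₄,
    WeierstrassCurve.b₆, WeierstrassCurve.b₈]
  simp [map_ofNat]

theorem piece_LOC4 : S_LOC4 := by
  intro K _ _ L _ _ _ g hg f hf v w hlies hgood h2 hn a ha α hinj hfα T q hT hq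
  obtain ⟨c₁, α₀, ρ, hFar⟩ := good_far g hg f hf v w hgood h2 hn a ha α hfα
  have hρ : ρ ≠ 0 := by
    have := hFar.r0
    rwa [Ne, map_eq_zero] at this
  set E := Ideal.ramificationIdx' v.asIdeal w.asIdeal with hEdef
  have hE : E ≠ 0 := (ram_pos v w).ne'
  have hvw : ∀ x : K, w.valuation L (algebraMap K L x) = v.valuation K x ^ E := fun x =>
    (HeightOneSpectrum.valuation_liesOver L v w x).symm
  -- the four roots
  let t : Fin 4 ↪o Fin (2 * g + 2) := T.orderEmbOfFin hT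
  have hprod : ∏ j ∈ T, (X - C (α j)) = ∏ i : Fin 4, (X - C (α (t i))) := by
    have h1 : T = Finset.univ.map t.toEmbedding := by
      exact (T.map_orderEmbOfFin_univ hT).symm
    rw [h1, Finset.prod_map]
    rfl
  rw [hprod] at hq
  have hρ' : algebraMap K L ρ ≠ 0 := hFar.r0
  set s : Fin 4 → L := fun i => (α (t i) - algebraMap K L α₀) / algebraMap K L ρ with hs
  have hαs : ∀ i, α (t i) = algebraMap K L ρ * s i + algebraMap K L α₀ := by
    intro i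
    rw [hs]
    field_simp
    ring
  have hL : q.map (algebraMap K L) = LOC4_p (-(α (t 0) + α (t 1) + α (t 2) + α (t 3)))
      (α (t 0) * α (t 1) + α (t 0) * α (t 2) + α (t 0) * α (t 3) + α (t 1) * α (t 2) +
        α (t 1) * α (t 3) + α (t 2) * α (t 3))
      (-(α (t 0) * α (t 1) * α (t 2) + α (t 0) * α (t 1) * α (t 3) + α (t 0) * α (t 2) * α (t 3) +
        α (t 1) * α (t 2) * α (t 3))) (α (t 0) * α (t 1) * α (t 2) * α (t 3)) := by
    rw [hq]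
    exact LOC4_prod fun i => α (t i)
  obtain ⟨-, d3, d2, d1, d0, -⟩ := LOC4_coeff (-(α (t 0) + α (t 1) + α (t 2) + α (t 3)))
      (α (t 0) * α (t 1) + α (t 0) * α (t 2) + α (t 0) * α (t 3) + α (t 1) * α (t 2) +
        α (t 1) * α (t 3) + α (t 2) * α (t 3))
      (-(α (t 0) * α (t 1) * α (t 2) + α (t 0) * α (t 1) * α (t 3) + α (t 0) * α (t 2) * α (t 3) +
        α (t 1) * α (t 2) * α (t 3))) (α (t 0) * α (t 1) * α (t 2) * α (t 3))
  rw [← hL, coeff_map] at d3 d2 d1 d0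
  -- the coefficients of the transformed quartic
  have m1 : algebraMap K L ((q.coeff 3 + 4 * α₀) / ρ) = -(s 0 + s 1 + s 2 + s 3) := by
    simp only [map_div₀, map_add, map_mul, map_ofNat, d3, hαs]
    field_simp
    ring
  have m2 : algebraMap K L ((q.coeff 2 + 3 * α₀ * q.coeff 3 + 6 * α₀ ^ 2) / ρ ^ 2) =
      s 0 * s 1 + s 0 * s 2 + s 0 * s 3 + s 1 * s 2 + s 1 * s 3 + s 2 * s 3 := by
    simp only [map_div₀, map_add, map_mul, map_pow, map_ofNat, d3, d2, hαs]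
    field_simp
    ring
  have m3 : algebraMap K L ((q.coeff 1 + 2 * α₀ * q.coeff 2 + 3 * α₀ ^ 2 * q.coeff 3 +
      4 * α₀ ^ 3) / ρ ^ 3) =
      -(s 0 * s 1 * s 2 + s 0 * s 1 * s 3 + s 0 * s 2 * s 3 + s 1 * s 2 * s 3) := by
    simp only [map_div₀, map_add, map_mul, map_pow, map_ofNat, d3, d2, d1, hαs]
    field_simp
    ring
  have m4 : algebraMap K L ((q.coeff 0 + α₀ * q.coeff 1 + α₀ ^ 2 * q.coeff 2 +
      α₀ ^ 3 * q.coeff 3 + α₀ ^ 4) / ρ ^ 4) = s 0 * s 1 * s 2 * s 3 := by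
    simp only [map_div₀, map_add, map_mul, map_pow, d3, d2, d1, d0, hαs]
    field_simp
    ring
  obtain ⟨κ, hκ, hκw, k0, k1, k2, k3, k4⟩ := LOC4_kap (algebraMap K L) (v.valuation K)
    (w.valuation L) E hvw _ _ _ _ s (LOC4_map (algebraMap K L) _ _ _ _ s m1 m2 m3 m4)
  -- the distances
  have hst : ∀ i j, i ≠ j → w.valuation L (s i - s j) =
      max 1 (w.valuation L (s i)) * max 1 (w.valuation L (s j)) := by
    intro i j hij
    exact hFar.far (t i) (t j) fun h => hij (t.injective h)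
  have hun : ∀ i j k l : Fin 4, i ≠ j → k ≠ l →
      max 1 (w.valuation L (s i)) * max 1 (w.valuation L (s j)) *
        (max 1 (w.valuation L (s k)) * max 1 (w.valuation L (s l))) =
        ∏ j, max 1 (w.valuation L (s j)) →
      w.valuation L (algebraMap K L κ * ((s i - s j) * (s k - s l))) = 1 := by
    intro i j k l hij hkl hp
    rw [map_mul, map_mul, hst i j hij, hst k l hkl, hp]
    exact hκw
  have u1 := hun 0 3 1 2 (by decide) (by decide) (by rw [Fin.prod_univ_four]; ac_rfl)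
  have u2 := hun 0 2 1 3 (by decide) (by decide) (by rw [Fin.prod_univ_four]; ac_rfl)
  have u3 := hun 0 1 2 3 (by decide) (by decide) (by rw [Fin.prod_univ_four]; ac_rfl)
  obtain ⟨π, hπ⟩ := v.valuation_exists_uniformizer K
  have hπ0 : π ≠ 0 := by
    intro h0
    rw [h0, map_zero] at hπ
    exact exp_ne_zero hπ.symm
  have hπo : ord (v.valuation K) π = 1 := by
    rw [ord, hπ]
    simp
  refine ⟨ord (v.valuation K) κ, fun e he ⟨k, hk⟩ => ?_⟩
  set u : K := π ^ (k + ord (v.valuation K) ρ) with hudef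
  have hu : u ≠ 0 := zpow_ne_zero _ hπ0
  have huo : ord (v.valuation K) u = k + ord (v.valuation K) ρ := by
    rw [hudef, ord_zpow, hπo, mul_one]
  set ε : K := e * ρ ^ 2 / (κ * u ^ 2) with hεdef
  have hε : ε ≠ 0 := div_ne_zero (mul_ne_zero he (pow_ne_zero _ hρ))
    (mul_ne_zero hκ (pow_ne_zero _ hu))
  have hεo : ord (v.valuation K) ε = 0 := by
    rw [hεdef, ord_div (mul_ne_zero he (pow_ne_zero _ hρ)) (mul_ne_zero hκ (pow_ne_zero _ hu)),
      ord_mul he (pow_ne_zero _ hρ), ord_mul hκ (pow_ne_zero _ hu), ord_pow, ord_pow, huo, hk]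
    push_cast
    ring
  have hεv : v.valuation K ε = 1 := by
    rw [w_eq_exp hε, hεo, neg_zero, exp_zero]
  have hee : e = u ^ 2 * ε * κ / ρ ^ 2 := by
    rw [hεdef]
    field_simp
  have hchg := LOC4_change q e α₀ ρ κ u ε hρ hu hee
  apply Nat.sInf_eq_zero.2
  left
  refine ⟨⟨Units.mk0 u hu, -(e * (α₀ * q.coeff 3 + 2 * α₀ ^ 2)), 0, 0⟩, ?_, ?_⟩
  · rw [hchg]
    exact LOC4_int _ _ _ _ _ _ _ k0 k1 k2 k3 k4 hεv.le
  · rw [hchg]
    have hΔ : w.valuation L (algebraMap K L (LOC4_W κ (κ * ((q.coeff 3 + 4 * α₀) / ρ))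
      (κ * ((q.coeff 2 + 3 * α₀ * q.coeff 3 + 6 * α₀ ^ 2) / ρ ^ 2))
      (κ * ((q.coeff 1 + 2 * α₀ * q.coeff 2 + 3 * α₀ ^ 2 * q.coeff 3 + 4 * α₀ ^ 3) / ρ ^ 3))
      (κ * ((q.coeff 0 + α₀ * q.coeff 1 + α₀ ^ 2 * q.coeff 2 + α₀ ^ 3 * q.coeff 3 + α₀ ^ 4) /
        ρ ^ 4)) ε).Δ) = 1 := by
      rw [LOC4_W_map, map_mul, m1, map_mul, m2, map_mul, m3, map_mul, m4, LOC4_disc, map_mul,
        map_mul, map_pow, map_pow, map_mul, map_mul, u1, u2, u3, hvw ε, hεv]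
      have h16 : w.valuation L (16 : L) = 1 := by
        have h1 := hvw (2 : K)
        rw [h2, one_pow, map_ofNat] at h1
        rw [show (16 : L) = 2 ^ 4 by norm_num, map_pow, h1, one_pow]
      rw [h16]
      simp
    rw [hvw] at hΔ
    rcases pow_eq_one_iff.1 hΔ with h3 | h3
    · rw [h3]
      simp
    · exact absurd h3 hE

end Pool.Agent.Lib.MP_ca2859_nt.FF
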