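import Pool.Agent.Lib.MP_ca2859_nt.FF.Stm

/-!
# LOC40: good reduction of `EQ q e` outside a finite set
-/

open Polynomial WithZero IsDedekindDomain NumberField
open Pool.Agent.Lib.MP_ca2859_nt Pool.Agent.Lib.MP_ca2859_nt.GR

namespace Pool.Agent.Lib.MP_ca2859_nt.FF

/-- the discriminant is homogeneous of degree six in the twist -/
theorem LOC40_disc {K : Type} [Field K] (q : K[X]) (e : K) :
    (EQ q e).Δ = e ^ 6 * (EQ q 1).Δ := by
  simp only [EQ, WeierstrassCurve.Δ, WeierstrassCurve.b₂, WeierstrassCurve.b₄,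
    WeierstrassCurve.b₆, WeierstrassCurve.b₈]
  ring

private lemma LOC40_zero {K : Type} [Field K] (v : Valuation K ℤᵐ⁰) (W : WeierstrassCurve K)
    (h : W.Δ = 0) : minDiscExpE v W = 0 := by
  have hs : {k : ℕ | ∃ C : WeierstrassCurve.VariableChange K, IntegralE v (C • W) ∧
      v (C • W).Δ = exp (-(k : ℤ))} = ∅ := by
    apply Set.eq_empty_of_forall_notMem
    rintro k ⟨C, -, hC⟩
    rw [WeierstrassCurve.variableChange_Δ, h, mul_zero, map_zero] at hC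
    exact exp_ne_zero hC.symm
  rw [minDiscExpE, hs, Nat.sInf_empty]

private lemma LOC40_unit {K : Type} [Field K] (v : Valuation K ℤᵐ⁰) (W : WeierstrassCurve K)
    (C : WeierstrassCurve.VariableChange K) (h : IntegralE v (C • W)) (hΔ : v (C • W).Δ = 1) :
    minDiscExpE v W = 0 := by
  apply Nat.le_zero.mp
  exact Nat.sInf_le ⟨C, h, by rw [hΔ]; simp⟩

private lemma LOC40_core {K : Type} [Field K] (v : Valuation K ℤᵐ⁰) (q : K[X])
    (hq : ∀ i, v (q.coeff i) ≤ 1) (hΔ : v (EQ q 1).Δ = 1) (c ε : K) (hc : c ≠ 0)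
    (hε : v ε = 1) : minDiscExpE v (EQ q (c ^ 2 * ε)) = 0 := by
  have h4 : v (4 : K) ≤ 1 := by
    have := natCast_mem v.integer 4
    exact_mod_cast this
  have hi : ∀ x y : K, v x ≤ 1 → v y ≤ 1 → v (x * y) ≤ 1 := fun x y hx hy => by
    rw [map_mul]; exact mul_le_one' hx hy
  have hp : ∀ (x : K) (n : ℕ), v x ≤ 1 → v (x ^ n) ≤ 1 := fun x n hx => by
    rw [map_pow]; exact pow_le_one' hx n
  have hcu : c * c⁻¹ = 1 := mul_inv_cancel₀ hc
  refine LOC40_unit v _ ⟨Units.mk0 c hc, 0, 0, 0⟩ ⟨?_, ?_, ?_, ?_, ?_⟩ ?_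
  · simp [WeierstrassCurve.variableChange_a₁, EQ]
  · rw [WeierstrassCurve.variableChange_a₂]
    have : ((Units.mk0 c hc)⁻¹ : Kˣ).val = c⁻¹ := rfl
    simp only [this, EQ]
    have h1 : c⁻¹ ^ 2 * (-(c ^ 2 * ε * q.coeff 2) - 0 * 0 + 3 * 0 - 0 ^ 2) =
        -(ε * q.coeff 2) := by
      field_simp
      ring
    rw [h1, Valuation.map_neg]
    exact hi _ _ hε.le (hq 2)
  · simp [WeierstrassCurve.variableChange_a₃, EQ]
  · rw [WeierstrassCurve.variableChange_a₄]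
    have : ((Units.mk0 c hc)⁻¹ : Kˣ).val = c⁻¹ := rfl
    simp only [this, EQ]
    have h1 : c⁻¹ ^ 4 * ((c ^ 2 * ε) ^ 2 * (q.coeff 3 * q.coeff 1 - 4 * q.coeff 0) - 0 * 0 +
        2 * 0 * -(c ^ 2 * ε * q.coeff 2) - (0 + 0 * 0) * 0 + 3 * 0 ^ 2 - 2 * 0 * 0) =
        ε ^ 2 * (q.coeff 3 * q.coeff 1 - 4 * q.coeff 0) := by
      field_simp
      ring
    rw [h1]
    exact hi _ _ (hp _ _ hε.le) (Valuation.map_sub_le v (hi _ _ (hq 3) (hq 1)) (hi _ _ h4 (hq 0)))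
  · rw [WeierstrassCurve.variableChange_a₆]
    have : ((Units.mk0 c hc)⁻¹ : Kˣ).val = c⁻¹ := rfl
    simp only [this, EQ]
    have h1 : c⁻¹ ^ 6 * (-((c ^ 2 * ε) ^ 3 * (q.coeff 1 ^ 2 + q.coeff 3 ^ 2 * q.coeff 0 -
        4 * q.coeff 2 * q.coeff 0)) + 0 * ((c ^ 2 * ε) ^ 2 * (q.coeff 3 * q.coeff 1 -
        4 * q.coeff 0)) + 0 ^ 2 * -(c ^ 2 * ε * q.coeff 2) + 0 ^ 3 - 0 * 0 - 0 ^ 2 - 0 * 0 * 0) =
        -(ε ^ 3 * (q.coeff 1 ^ 2 + q.coeff 3 ^ 2 * q.coeff 0 - 4 * q.coeff 2 * q.coeff 0)) := by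
      field_simp
      ring
    rw [h1, Valuation.map_neg]
    exact hi _ _ (hp _ _ hε.le) (Valuation.map_sub_le v (Valuation.map_add_le _ (hp _ _ (hq 1))
      (hi _ _ (hp _ _ (hq 3)) (hq 0))) (hi _ _ (hi _ _ h4 (hq 2)) (hq 0)))
  · rw [WeierstrassCurve.variableChange_Δ, LOC40_disc]
    have : ((Units.mk0 c hc)⁻¹ : Kˣ).val = c⁻¹ := rfl
    rw [this]
    have h1 : c⁻¹ ^ 12 * ((c ^ 2 * ε) ^ 6 * (EQ q 1).Δ) = ε ^ 6 * (EQ q 1).Δ := by
      field_simp
    rw [h1, map_mul, map_pow, hε, hΔ]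
    simp

/-- LOC40 -/
theorem piece_LOC40 : S_LOC40 := by
  intro K _ _ q _ _ _
  by_cases h0 : (EQ q 1).Δ = 0
  · refine Set.Finite.subset Set.finite_empty ?_
    intro v hv
    exfalso
    apply hv
    intro e _ _
    apply LOC40_zero
    rw [LOC40_disc, h0, mul_zero]
  · have h1 : (⋃ i ∈ Finset.range (q.natDegree + 1),
        HeightOneSpectrum.Support (𝓞 K) (q.coeff i)).Finite :=
      Set.Finite.biUnion (Finset.finite_toSet _)
        (fun i _ => HeightOneSpectrum.Support.finite (𝓞 K) (q.coeff i))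
    refine (h1.union (finite_val_ne_one (EQ q 1).Δ h0)).subset ?_
    intro v hv
    by_contra hcon
    simp only [Set.mem_union, Set.mem_iUnion, not_or, not_exists, Set.mem_ofPred_eq,
      not_not] at hcon
    apply hv
    rintro e he ⟨k, hk⟩
    obtain ⟨π, hπ⟩ := v.valuation_exists_uniformizer K
    have hq : ∀ i, v.valuation K (q.coeff i) ≤ 1 := by
      intro i
      by_cases hi : i ∈ Finset.range (q.natDegree + 1)
      · exact not_lt.mp (hcon.1 i hi)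
      · rw [coeff_eq_zero_of_natDegree_lt (by rw [Finset.mem_range] at hi; omega)]
        simp
    have hπ0 : π ≠ 0 := by
      rintro rfl
      rw [map_zero] at hπ
      exact exp_ne_zero hπ.symm
    have hc : π ^ k ≠ 0 := zpow_ne_zero _ hπ0
    have hπo : ord (v.valuation K) π = 1 := by
      rw [ord, hπ]; simp
    have hvε : v.valuation K (e / (π ^ k) ^ 2) = 1 := by
      rw [w_eq_exp (div_ne_zero he (pow_ne_zero _ hc)), ord_div he (pow_ne_zero _ hc), ord_pow,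
        ord_zpow, hπo, hk]
      simp
    have he2 : e = (π ^ k) ^ 2 * (e / (π ^ k) ^ 2) := by
      field_simp
    have := LOC40_core (v.valuation K) q hq hcon.2 (π ^ k) (e / (π ^ k) ^ 2) hc hvε
    rw [← he2] at this
    exact this

end Pool.Agent.Lib.MP_ca2859_nt.FF
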