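import Pool.Agent.Lib.MP_ca2859_nt.FF.Stm

/-!
# FixedField, piece T2: the 2-torsion of the resolvent cubic curve
-/

open Polynomial

namespace Pool.Agent.Lib.MP_ca2859_nt.FF

private theorem T2_factor {K : Type} [Field K] (q : K[X]) (hq : q.Monic) (hd : q.natDegree ≠ 0) :
    ∃ p s : K[X], p.Monic ∧ s.Monic ∧ Irreducible p ∧ q = p * s := by
  have hu : ¬ IsUnit q := by
    intro h
    exact hd (natDegree_eq_zero_of_isUnit h)
  obtain ⟨p, hp1, hp2, s, hs⟩ := exists_monic_irreducible_factor q hu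
  refine ⟨p, s, hp1, ?_, hp2, hs⟩
  exact hp1.of_mul_monic_left (hs ▸ hq)

private theorem T2_deg2 {K : Type} [Field K] (p : K[X]) (hp : p.Monic) (hd : p.natDegree = 2) :
    p = X ^ 2 + C (p.coeff 1) * X + C (p.coeff 0) := by
  have h2 : p.coeff 2 = 1 := by rw [← hd]; exact hp
  conv_lhs => rw [p.as_sum_range_C_mul_X_pow, hd]
  simp only [Finset.sum_range_succ, Finset.sum_range_zero]
  rw [h2, map_one]
  ring

private theorem T2_deg1 {K : Type} [Field K] (p : K[X]) (hp : p.Monic) (hd : p.natDegree = 1) :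
    p = X + C (p.coeff 0) := by
  have h2 : p.coeff 1 = 1 := by rw [← hd]; exact hp
  conv_lhs => rw [p.as_sum_range_C_mul_X_pow, hd]
  simp only [Finset.sum_range_succ, Finset.sum_range_zero]
  rw [h2, map_one]
  ring

private theorem T2_one_le {K : Type} [Field K] (p : K[X]) (hp : Irreducible p) :
    1 ≤ p.natDegree := hp.natDegree_pos

/-- a monic quartic all of whose irreducible factors have degree at most two -/
private theorem T2_quad {K : Type} [Field K] (q : K[X]) (hq : q.Monic) (hd : q.natDegree = 4)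
    (hD : DegLe 2 q) : ∃ a b c d : K, q = (X ^ 2 + C a * X + C c) * (X ^ 2 + C b * X + C d) := by
  obtain ⟨p, s, hp, hs, hip, hps⟩ := T2_factor q hq (by omega)
  have h1 := T2_one_le p hip
  have h2 : p.natDegree ≤ 2 := hD p hip (hps ▸ dvd_mul_right _ _)
  have h3 : p.natDegree + s.natDegree = 4 := by rw [← hd, hps, hp.natDegree_mul hs]
  rcases (by omega : p.natDegree = 2 ∨ p.natDegree = 1) with h4 | h4
  · refine ⟨p.coeff 1, s.coeff 1, p.coeff 0, s.coeff 0, ?_⟩
    rw [← T2_deg2 p hp h4, ← T2_deg2 s hs (by omega)]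
    exact hps
  · obtain ⟨p', s', hp', hs', hip', hps'⟩ := T2_factor s hs (by omega)
    have h1' := T2_one_le p' hip'
    have h2' : p'.natDegree ≤ 2 := hD p' hip' (by
      rw [hps, hps']
      exact dvd_mul_of_dvd_right (dvd_mul_right _ _) _)
    have h3' : p'.natDegree + s'.natDegree = s.natDegree := by rw [hps', hp'.natDegree_mul hs']
    rcases (by omega : p'.natDegree = 2 ∨ p'.natDegree = 1) with h5 | h5
    · have h6 : (p * s').Monic := hp.mul hs'
      have h7 : (p * s').natDegree = 2 := by rw [hp.natDegree_mul hs']; omega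
      refine ⟨p'.coeff 1, (p * s').coeff 1, p'.coeff 0, (p * s').coeff 0, ?_⟩
      rw [← T2_deg2 p' hp' h5, ← T2_deg2 _ h6 h7, hps, hps']
      ring
    · have h6 : (p * p').Monic := hp.mul hp'
      have h7 : (p * p').natDegree = 2 := by rw [hp.natDegree_mul hp']; omega
      refine ⟨(p * p').coeff 1, s'.coeff 1, (p * p').coeff 0, s'.coeff 0, ?_⟩
      rw [← T2_deg2 _ h6 h7, ← T2_deg2 s' hs' (by omega), hps, hps']
      ring

/-- a monic quartic all of whose irreducible factors have degree one -/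
private theorem T2_lin {K : Type} [Field K] (q : K[X]) (hq : q.Monic) (hd : q.natDegree = 4)
    (hD : DegLe 1 q) : ∃ r₁ r₂ r₃ r₄ : K,
      q = (X + C r₁) * ((X + C r₂) * ((X + C r₃) * (X + C r₄))) := by
  have key : ∀ (s : K[X]), s.Monic → s ∣ q → s.natDegree ≠ 0 →
      ∃ (r : K) (s' : K[X]), s'.Monic ∧ s = (X + C r) * s' ∧ s' ∣ q ∧
        s'.natDegree + 1 = s.natDegree := by
    intro s hs hsq hsd
    obtain ⟨p, s', hp, hs', hip, hps⟩ := T2_factor s hs hsd
    have h1 := T2_one_le p hip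
    have h2 : p.natDegree ≤ 1 := hD p hip ((hps ▸ dvd_mul_right _ _ : p ∣ s).trans hsq)
    have h3 : p.natDegree + s'.natDegree = s.natDegree := by rw [hps, hp.natDegree_mul hs']
    refine ⟨p.coeff 0, s', hs', ?_, (hps ▸ dvd_mul_left _ _ : s' ∣ s).trans hsq, by omega⟩
    rw [← T2_deg1 p hp (by omega)]
    exact hps
  obtain ⟨r₁, s₁, m₁, e₁, d₁, n₁⟩ := key q hq dvd_rfl (by omega)
  obtain ⟨r₂, s₂, m₂, e₂, d₂, n₂⟩ := key s₁ m₁ d₁ (by omega)
  obtain ⟨r₃, s₃, m₃, e₃, d₃, n₃⟩ := key s₂ m₂ d₂ (by omega)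
  refine ⟨r₁, r₂, r₃, s₃.coeff 0, ?_⟩
  rw [← T2_deg1 s₃ m₃ (by omega), ← e₃, ← e₂]
  exact e₁

private theorem T2_coeff {K : Type} [Field K] (A B E D : K) :
    (X ^ 4 + C A * X ^ 3 + C B * X ^ 2 + C E * X + C D : K[X]).coeff 3 = A ∧
    (X ^ 4 + C A * X ^ 3 + C B * X ^ 2 + C E * X + C D : K[X]).coeff 2 = B ∧
    (X ^ 4 + C A * X ^ 3 + C B * X ^ 2 + C E * X + C D : K[X]).coeff 1 = E ∧
    (X ^ 4 + C A * X ^ 3 + C B * X ^ 2 + C E * X + C D : K[X]).coeff 0 = D := by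
  refine ⟨?_, ?_, ?_, ?_⟩ <;>
    simp [coeff_X, coeff_X_pow, coeff_C]

/-- the 2-torsion polynomial -/
private theorem T2_pol {K : Type} [Field K] (q : K[X]) (e A B E D : K)
    (h : q = X ^ 4 + C A * X ^ 3 + C B * X ^ 2 + C E * X + C D) :
    (EQ q e).twoTorsionPolynomial.toPoly = C 4 * (X ^ 3 - C (e * B) * X ^ 2 +
      C (e ^ 2 * (A * E - 4 * D)) * X - C (e ^ 3 * (E ^ 2 + A ^ 2 * D - 4 * B * D))) := by
  obtain ⟨h3, h2, h1, h0⟩ := T2_coeff A B E D
  rw [← h] at h3 h2 h1 h0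
  simp only [WeierstrassCurve.twoTorsionPolynomial, Cubic.toPoly, WeierstrassCurve.b₂,
    WeierstrassCurve.b₄, WeierstrassCurve.b₆, EQ, h3, h2, h1, h0]
  simp only [map_mul, map_add, map_sub, map_neg, map_pow, map_zero, map_ofNat]
  ring

theorem piece_T2 : S_T2 := by
  intro K _ _ q e hq hd he
  constructor
  · intro hD
    obtain ⟨a, b, c, d, h⟩ := T2_quad q hq hd hD
    have h' : q = X ^ 4 + C (a + b) * X ^ 3 + C (c + d + a * b) * X ^ 2 +
        C (a * d + b * c) * X + C (c * d) := by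
      rw [h]
      simp only [map_mul, map_add]
      ring
    refine ⟨e * (c + d), ?_⟩
    rw [T2_pol q e _ _ _ _ h', IsRoot]
    simp only [eval_mul, eval_add, eval_sub, eval_pow, eval_C, eval_X]
    ring
  · intro hD
    obtain ⟨r₁, r₂, r₃, r₄, h⟩ := T2_lin q hq hd hD
    have h' : q = X ^ 4 + C (r₁ + r₂ + r₃ + r₄) * X ^ 3 +
        C (r₁ * r₂ + r₁ * r₃ + r₁ * r₄ + r₂ * r₃ + r₂ * r₄ + r₃ * r₄) * X ^ 2 +
        C (r₁ * r₂ * r₃ + r₁ * r₂ * r₄ + r₁ * r₃ * r₄ + r₂ * r₃ * r₄) * X +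
        C (r₁ * r₂ * r₃ * r₄) := by
      rw [h]
      simp only [map_mul, map_add]
      ring
    have h4 : (EQ q e).twoTorsionPolynomial.toPoly = C 4 * ((X - C (e * (r₁ * r₂ + r₃ * r₄))) *
        ((X - C (e * (r₁ * r₃ + r₂ * r₄))) * (X - C (e * (r₁ * r₄ + r₂ * r₃))))) := by
      rw [T2_pol q e _ _ _ _ h']
      simp only [map_mul, map_add, map_sub, map_pow, map_ofNat]
      ring
    rw [h4]
    exact Splits.C_mul ((Splits.X_sub_C _).mul ((Splits.X_sub_C _).mul (Splits.X_sub_C _))) _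

end Pool.Agent.Lib.MP_ca2859_nt.FF
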