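import Pool.Agent.Lib.MP_ca2859_nt.FF.Stm
import Pool.Agent.Lib.MP_ca2859_nt.GR.T1

/-!
# Fixed field theorem, piece TMC: the bad primes of the curve `y² = e q(x)`
-/

set_option autoImplicit false

open Polynomial WithZero IsDedekindDomain NumberField
open Pool.Agent.Lib.MP_ca2859_nt Pool.Agent.Lib.MP_ca2859_nt.GR

namespace Pool.Agent.Lib.MP_ca2859_nt.FF

private theorem TMC_norm_pos {K : Type} [Field K] [NumberField K] (v : HeightOneSpectrum (𝓞 K)) :
    1 ≤ Ideal.absNorm v.asIdeal := by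
  rw [Nat.one_le_iff_ne_zero, Ne, Ideal.absNorm_eq_zero_iff]
  exact v.ne_bot

private theorem TMC_union {K : Type} [Field K] [NumberField K]
    (A B C : Finset (HeightOneSpectrum (𝓞 K))) (h : ∀ v ∈ C, v ∈ A ∨ v ∈ B) :
    ∏ v ∈ C, Ideal.absNorm v.asIdeal ≤
      (∏ v ∈ A, Ideal.absNorm v.asIdeal) * ∏ v ∈ B, Ideal.absNorm v.asIdeal := by
  classical
  have h1 : ∏ v ∈ C, Ideal.absNorm v.asIdeal ≤ ∏ v ∈ A ∪ B, Ideal.absNorm v.asIdeal :=
    Finset.prod_le_prod_of_subset_of_one_le' (fun v hv => Finset.mem_union.2 (h v hv))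
      (fun v _ _ => TMC_norm_pos v)
  have h2 := Finset.prod_union_inter (s₁ := A) (s₂ := B)
    (f := fun v : HeightOneSpectrum (𝓞 K) => Ideal.absNorm v.asIdeal)
  rw [← h2]
  refine h1.trans (Nat.le_mul_of_pos_right _ ?_)
  exact Finset.prod_pos fun v _ => TMC_norm_pos v

/-- **Piece TMC.** -/
theorem piece_TMC (h1 : S_LOC6) (h2 : S_LOC60) (h3 : S_GLOB) : S_TMC := by
  intro K _ _ L _ _ _ g hg f hf a ha α hα hsplit T q g' hg' hT hq
  have hdeg : q.natDegree = 2 * g' + 2 := by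
    have e1 : (q.map (algebraMap K L)).natDegree = q.natDegree := Polynomial.natDegree_map _
    rw [← e1, hq, Polynomial.natDegree_finsetProd_X_sub_C_eq_card, hT]
  have hsep : q.Separable := by
    rw [← Polynomial.separable_map (algebraMap K L), hq,
      Polynomial.separable_prod_X_sub_C_iff']
    intro x _ y _ hxy
    exact hα hxy
  obtain ⟨e, he, J, hJ, hgood⟩ := h3 K (fun e v => discExp g' (C e * q) v = 0) (SB g f)
    (by
      intro v hv
      obtain ⟨h2', hn, hd⟩ := not_mem_SB g f hf v hv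
      obtain ⟨w, hw⟩ := exists_place_above (K := K) (L := L) v
      exact h1 K L g hg f hf v w hw hd h2' hn a ha α hα hsplit T q g' hg' hT hq)
    (h2 K q g' hg' hsep hdeg)
  have hyp : IsHyperelliptic g' (C e * q) := by
    refine ⟨hsep.of_dvd ⟨C e⁻¹, ?_⟩, Or.inr ?_⟩
    · have : C e * C e⁻¹ = (1 : K[X]) := by rw [← C_mul, mul_inv_cancel₀ he, C_1]
      linear_combination (-q) * this
    · rw [Polynomial.natDegree_C_mul he, hdeg]
  refine ⟨e, he, hyp, ?_⟩
  rw [MC_eq_prod g' (C e * q) hyp]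
  refine (TMC_union (SB g f) J _ ?_).trans ?_
  · intro v hv
    rw [Set.Finite.mem_toFinset] at hv
    by_contra hcon
    push Not at hcon
    exact hv (hgood v hcon.1 hcon.2)
  · refine (Nat.mul_le_mul ((prod_SB_le g f hf).trans
      (Nat.mul_le_mul_left _ (prod_B0_le (K := K) g))) hJ).trans (le_of_eq ?_)
    have e2 : (4 * (2 * g + 2)) ^ Module.finrank ℚ K =
        (2 * (2 * g + 2)) ^ Module.finrank ℚ K * 2 ^ Module.finrank ℚ K := by
      rw [← mul_pow]
      congr 1
      ring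
    rw [e2]
    ring

end Pool.Agent.Lib.MP_ca2859_nt.FF
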