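import Pool.Agent.Lib.MP_ca2859_nt.FF.Stm
import Pool.Agent.Lib.MP_ca2859_nt.GR.T1

open Polynomial WithZero IsDedekindDomain NumberField
open Pool.Agent.Lib.MP_ca2859_nt Pool.Agent.Lib.MP_ca2859_nt.GR

namespace Pool.Agent.Lib.MP_ca2859_nt.FF

private lemma TME_PR_le {K : Type} [Field K] [NumberField K]
    (e : HeightOneSpectrum (𝓞 K) → ℕ) (S J : Finset (HeightOneSpectrum (𝓞 K)))
    (h : ∀ v, v ∉ S → v ∉ J → e v = 0) :
    PR e ≤ (∏ v ∈ S, Ideal.absNorm v.asIdeal) * ∏ v ∈ J, Ideal.absNorm v.asIdeal := by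
  classical
  rw [PR_eq e (S ∪ J) (fun v hv => by
    rw [Finset.mem_union]
    by_contra h0
    rw [not_or] at h0
    exact hv (h v h0.1 h0.2))]
  calc ∏ v ∈ S ∪ J, (if e v = 0 then 1 else Ideal.absNorm v.asIdeal)
      ≤ ∏ v ∈ S ∪ J, Ideal.absNorm v.asIdeal := by
        refine Finset.prod_le_prod' fun v _ => ?_
        have := one_le_absNorm v
        split_ifs
        · omega
        · exact le_rfl
    _ ≤ _ := by
        rw [← Finset.prod_union_inter]
        apply Nat.le_mul_of_pos_right
        apply Finset.prod_pos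
        intro v _
        have := one_le_absNorm v
        omega

theorem piece_TME (h1 : S_LOC4) (h2 : S_LOC40) (h3 : S_EQD) (h4 : S_GLOB) : S_TME := by
  intro K _ _ L _ _ _ g hg f hf a ha α hα hfac T q hT hq
  classical
  have hinj : Function.Injective (algebraMap K L) := (algebraMap K L).injective
  have hqm' : (q.map (algebraMap K L)).Monic := by
    rw [hq]
    exact monic_prod_of_monic T _ fun j _ => monic_X_sub_C _
  have hqm : q.Monic := monic_of_injective hinj hqm'
  have hdeg : q.natDegree = 4 := by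
    rw [← natDegree_map (algebraMap K L) (p := q), hq,
      natDegree_prod_of_monic T _ fun j _ => monic_X_sub_C _]
    simp [hT]
  have hsep : q.Separable := by
    rw [← separable_map (algebraMap K L), hq, separable_prod_X_sub_C_iff']
    intro x _ y _ hxy
    exact hα hxy
  obtain ⟨e, he, J, hJ, hP⟩ := h4 K (fun e v => discExpE (EQ q e) v = 0) (SB g f)
    (fun v hv => by
      obtain ⟨w, hw⟩ := exists_place_above (K := K) (L := L) v
      obtain ⟨g1, g2, g3⟩ := not_mem_SB g f hf v hv
      exact h1 K L g hg f hf v w hw g3 g1 g2 a ha α hα hfac T q hT hq)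
    (h2 K q hqm hsep hdeg)
  refine ⟨e, he, h3 K q hqm hdeg hsep e he, ?_⟩
  rw [ME_eq_PR]
  refine (TME_PR_le _ (SB g f) J hP).trans ?_
  calc (∏ v ∈ SB g f, Ideal.absNorm v.asIdeal) * ∏ v ∈ J, Ideal.absNorm v.asIdeal
      ≤ (MC g f * (2 * (2 * g + 2)) ^ Module.finrank ℚ K) *
          (2 ^ Module.finrank ℚ K * (discr K).natAbs) :=
        Nat.mul_le_mul ((prod_SB_le g f hf).trans (Nat.mul_le_mul_left _ (prod_B0_le g))) hJ
    _ = (4 * (2 * g + 2)) ^ Module.finrank ℚ K * (discr K).natAbs * MC g f := by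
        have : (4 * (2 * g + 2)) ^ Module.finrank ℚ K =
            (2 * (2 * g + 2)) ^ Module.finrank ℚ K * 2 ^ Module.finrank ℚ K := by
          rw [← Nat.mul_pow]
          congr 1
          ring
        rw [this]
        ring

end Pool.Agent.Lib.MP_ca2859_nt.FF
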