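import Pool.Agent.Lib.MP_ca2859_nt.FF.Stm
import Pool.Agent.Lib.MP_ca2859_nt.Global2

/-!
# TW: twists with prescribed valuations
-/

open Polynomial WithZero IsDedekindDomain NumberField nonZeroDivisors
open Pool.Agent.Lib.MP_ca2859_nt Pool.Agent.Lib.MP_ca2859_nt.GR

namespace Pool.Agent.Lib.MP_ca2859_nt.FF

section
variable {K : Type} [Field K] [NumberField K]

private theorem tw_irr (v : HeightOneSpectrum (𝓞 K)) : Irreducible (Associates.mk v.asIdeal) :=
  v.associates_irreducible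

private theorem tw_cnt_zero (v : HeightOneSpectrum (𝓞 K)) (I : Ideal (𝓞 K)) (hI : I ≠ 0)
    (h : ¬ v.asIdeal ∣ I) : (Associates.mk v.asIdeal).count (Associates.mk I).factors = 0 := by
  by_contra hc
  exact h ((Associates.count_ne_zero_iff_dvd hI v.irreducible).1 hc)

private theorem tw_cnt_mul (v : HeightOneSpectrum (𝓞 K)) (I J : Ideal (𝓞 K)) (hI : I ≠ 0)
    (hJ : J ≠ 0) : (Associates.mk v.asIdeal).count (Associates.mk (I * J)).factors =
      (Associates.mk v.asIdeal).count (Associates.mk I).factors +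
        (Associates.mk v.asIdeal).count (Associates.mk J).factors := by
  rw [← Associates.mk_mul_mk, Associates.count_mul (Associates.mk_ne_zero.2 hI)
    (Associates.mk_ne_zero.2 hJ) (tw_irr v)]

private theorem tw_prime_dvd (v : HeightOneSpectrum (𝓞 K))
    (S : Finset (HeightOneSpectrum (𝓞 K))) (h : v.asIdeal ∣ ∏ u ∈ S, u.asIdeal) : v ∈ S := by
  obtain ⟨v', hv', hd⟩ := (Prime.dvd_finsetProd_iff v.prime _).1 h
  have h1 : v'.asIdeal ≤ v.asIdeal := Ideal.dvd_iff_le.1 hd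
  have h2 := v'.isMaximal.eq_of_le v.isPrime.ne_top h1
  have h3 : v' = v := HeightOneSpectrum.ext h2
  rwa [h3] at hv'

private theorem tw_norm (A : Ideal (𝓞 K)) (hA : A ≠ 0) (J : Finset (HeightOneSpectrum (𝓞 K)))
    (hJ : ∀ v ∈ J, v.asIdeal ∣ A) : ∏ v ∈ J, Ideal.absNorm v.asIdeal ≤ Ideal.absNorm A := by
  classical
  have hinj : Set.InjOn (fun w : HeightOneSpectrum (𝓞 K) => w.asIdeal) (J : Set _) :=
    fun w _ w' _ h => HeightOneSpectrum.ext h
  have hdvd : ∏ w ∈ J, w.asIdeal ∣ A := by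
    have h1 : ∏ w ∈ J, w.asIdeal = ∏ P ∈ J.image (fun w => w.asIdeal), P := by
      rw [Finset.prod_image hinj]
    rw [h1]
    apply Finset.prod_primes_dvd
    · intro P hP
      obtain ⟨w, -, rfl⟩ := Finset.mem_image.1 hP
      exact w.prime
    · intro P hP
      obtain ⟨w, hw, rfl⟩ := Finset.mem_image.1 hP
      exact hJ w hw
  rw [← map_prod]
  apply Nat.le_of_dvd
  · apply Nat.pos_of_ne_zero
    rw [Ne, Ideal.absNorm_eq_zero_iff]
    exact hA
  · exact map_dvd _ hdvd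

private theorem tw_bound (n r d : ℕ) (hr : r ≤ n) (hd : 1 ≤ d) :
    (4 / Real.pi) ^ r * ((n.factorial : ℝ) / (n : ℝ) ^ n * Real.sqrt d) ≤ 2 ^ n * d := by
  have hpi := Real.pi_gt_three
  have h1 : (4 / Real.pi) ^ r ≤ 2 ^ n := by
    have h2 : 4 / Real.pi ≤ 2 := by
      rw [div_le_iff₀ (by linarith)]
      linarith
    have h3 : (0 : ℝ) ≤ 4 / Real.pi := by positivity
    calc (4 / Real.pi) ^ r ≤ 2 ^ r := pow_le_pow_left₀ h3 h2 r
      _ ≤ 2 ^ n := pow_le_pow_right₀ (by norm_num) hr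
  have h4 : (n.factorial : ℝ) / (n : ℝ) ^ n ≤ 1 := by
    apply div_le_one_of_le₀ _ (by positivity)
    exact_mod_cast Nat.factorial_le_pow n
  have hd' : (1 : ℝ) ≤ d := by exact_mod_cast hd
  have h5 : Real.sqrt d ≤ d := by
    rw [Real.sqrt_le_left (by linarith)]
    nlinarith
  have h6 : (n.factorial : ℝ) / (n : ℝ) ^ n * Real.sqrt d ≤ 1 * d :=
    mul_le_mul h4 h5 (Real.sqrt_nonneg _) zero_le_one
  rw [one_mul] at h6
  exact mul_le_mul h1 h6 (by positivity) (by positivity)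

end

theorem piece_TW : S_TW := by
  intro K _ _ S
  classical
  set I : Ideal (𝓞 K) := ∏ v ∈ S, v.asIdeal with hI
  have hI0 : I ≠ 0 := Finset.prod_ne_zero_iff.2 fun v _ => v.ne_bot
  set I' : (Ideal (𝓞 K))⁰ := ⟨I, mem_nonZeroDivisors_iff_ne_zero.mpr hI0⟩ with hI'
  obtain ⟨A, hA, hnorm⟩ := NumberField.exists_ideal_in_class_of_norm_le (ClassGroup.mk0 I')⁻¹
  have hA0 : (A : Ideal (𝓞 K)) ≠ 0 := nonZeroDivisors.coe_ne_zero A
  have hprin : ((I' * A : (Ideal (𝓞 K))⁰) : Ideal (𝓞 K)).IsPrincipal := by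
    have h1 : ClassGroup.mk0 (I' * A) = 1 := by
      rw [map_mul, hA, mul_inv_cancel]
    exact (ClassGroup.mk0_eq_one_iff (I' * A).2).1 h1
  obtain ⟨x, hx⟩ := hprin.principal
  have hx' : I * (A : Ideal (𝓞 K)) = Ideal.span {x} := hx
  have hx0 : x ≠ 0 := by
    rintro rfl
    rw [Ideal.span_singleton_eq_bot.2 rfl] at hx'
    exact mul_ne_zero hI0 hA0 hx'
  have hfin : {v : HeightOneSpectrum (𝓞 K) | v.asIdeal ∣ (A : Ideal (𝓞 K))}.Finite :=
    Ideal.finite_factors hA0
  refine ⟨algebraMap (𝓞 K) K x, by simpa using hx0, hfin.toFinset, ?_, ?_⟩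
  · have h1 := tw_norm (A : Ideal (𝓞 K)) hA0 hfin.toFinset fun v hv => by
      rw [Set.Finite.mem_toFinset] at hv
      exact hv
    have hD : (|(discr K : ℝ)|) = ((discr K).natAbs : ℝ) := by
      rw [Nat.cast_natAbs, Int.cast_abs]
    have h2 : (Ideal.absNorm (A : Ideal (𝓞 K)) : ℝ) ≤
        2 ^ Module.finrank ℚ K * ((discr K).natAbs : ℝ) := by
      refine hnorm.trans ?_
      rw [hD]
      refine tw_bound _ _ _ ?_ (one_le_discr K)
      have := InfinitePlace.card_add_two_mul_card_eq_rank K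
      omega
    have h3 : Ideal.absNorm (A : Ideal (𝓞 K)) ≤ 2 ^ Module.finrank ℚ K * (discr K).natAbs := by
      exact_mod_cast h2
    exact h1.trans h3
  · intro v hv
    rw [Set.Finite.mem_toFinset] at hv
    have hcA := tw_cnt_zero v A hA0 hv
    have hord : ord (v.valuation K) (algebraMap (𝓞 K) K x) =
        ((Associates.mk v.asIdeal).count (Associates.mk I).factors : ℤ) := by
      rw [ord_eq_cntx x hx0 v, cntx, ← hx', tw_cnt_mul v I A hI0 hA0, hcA, add_zero]
    rw [hord]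
    refine ⟨fun hvS => ?_, fun hvS => ?_⟩
    · have h1 : I = v.asIdeal * ∏ u ∈ S.erase v, u.asIdeal := by
        rw [hI, Finset.mul_prod_erase S _ hvS]
      have h2 : (∏ u ∈ S.erase v, u.asIdeal : Ideal (𝓞 K)) ≠ 0 :=
        Finset.prod_ne_zero_iff.2 fun v _ => v.ne_bot
      rw [h1, tw_cnt_mul v _ _ v.ne_bot h2, Associates.count_self (tw_irr v),
        tw_cnt_zero v _ h2 fun h => by
          have := tw_prime_dvd v _ h
          simp at this]
      norm_num
    · rw [tw_cnt_zero v I hI0 fun h => hvS (tw_prime_dvd v S h)]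
      norm_num

end Pool.Agent.Lib.MP_ca2859_nt.FF
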