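import Pool.Agent.Lib.MP_ca2859_nt.FF.Stm

/-!
# Fixed field theorem: piece FAC (irreducible factors and roots)
-/

open Polynomial WithZero IsDedekindDomain NumberField
open Pool.Agent.Lib.MP_ca2859_nt Pool.Agent.Lib.MP_ca2859_nt.GR

namespace Pool.Agent.Lib.MP_ca2859_nt.FF

private theorem FAC_nfac {K : Type} [Field K] (J : Finset K[X]) (hJ : ∀ p ∈ J, Irreducible p)
    (e : K) (he : e ≠ 0) : nfac (C e * fJ J) = J.card := by
  have h0 : C e * fJ J ≠ 0 := by
    refine mul_ne_zero (C_ne_zero.2 he) ?_
    exact Finset.prod_ne_zero_iff.2 fun p hp => (hJ p hp).ne_zero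
  have h1 : Associated (UniqueFactorizationMonoid.factors (C e * fJ J)).prod J.val.prod := by
    refine (UniqueFactorizationMonoid.factors_prod h0).trans ?_
    have h2 : J.val.prod = fJ J := (Finset.prod_val J).symm ▸ rfl
    rw [h2]
    exact (associated_isUnit_mul_left_iff (isUnit_C.2 he.isUnit)).2 (Associated.refl _)
  have h3 := UniqueFactorizationMonoid.factors_unique
    (fun x hx => UniqueFactorizationMonoid.irreducible_of_factor x hx) (fun x hx => hJ x hx) h1
  exact Multiset.card_eq_card_of_rel h3

theorem piece_FAC : S_FAC := by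
  intro K _ _ _ L _ _ _ n f hsep hdeg hn a ha α hinj hf
  have hf0 : f ≠ 0 := hsep.ne_zero
  have hroot : ∀ j, aeval (α j) f = 0 := by
    intro j
    rw [← eval_map_algebraMap, hf, eval_mul, eval_prod, Finset.prod_eq_zero (Finset.mem_univ j)]
    · rw [mul_zero]
    · simp
  have hint : ∀ j, IsIntegral K (α j) := fun j =>
    (isAlgebraic_iff_isIntegral).1 ⟨f, hf0, hroot j⟩
  have hirr : ∀ j, Irreducible (minpoly K (α j)) := fun j => minpoly.irreducible (hint j)
  have hdvd : ∀ j, minpoly K (α j) ∣ f := fun j => minpoly.dvd K _ (hroot j)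
  have hmon : ∀ j, (minpoly K (α j)).Monic := fun j => minpoly.monic (hint j)
  have hfs : (f.map (algebraMap K L)).Splits := by
    rw [hf]
    exact (Splits.C _).mul (Splits.prod fun j _ => Splits.X_sub_C _)
  have hfm0 : f.map (algebraMap K L) ≠ 0 := map_ne_zero hf0
  -- the roots of the factors
  have hkey : ∀ j, ((minpoly K (α j)).map (algebraMap K L)).roots =
      ((Finset.univ.filter fun k => minpoly K (α k) = minpoly K (α j)).val.map α) := by
    intro j
    have hs : ((minpoly K (α j)).map (algebraMap K L)).Separable :=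
      (hsep.of_dvd (hdvd j)).map
    have hn1 : ((minpoly K (α j)).map (algebraMap K L)).roots.Nodup := nodup_roots hs
    have hn2 : ((Finset.univ.filter fun k => minpoly K (α k) = minpoly K (α j)).val.map α).Nodup :=
      Multiset.Nodup.map hinj (Finset.nodup _)
    rw [Multiset.Nodup.ext hn1 hn2]
    intro x
    have hm0 : (minpoly K (α j)).map (algebraMap K L) ≠ 0 := hs.ne_zero
    rw [mem_roots hm0, Multiset.mem_map]
    constructor
    · intro hx
      have h1 : IsRoot (f.map (algebraMap K L)) x := hx.dvd (map_dvd (mapRingHom _) (hdvd j))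
      rw [IsRoot, hf, eval_mul, eval_C, mul_eq_zero, eval_prod, Finset.prod_eq_zero_iff] at h1
      rcases h1 with h1 | ⟨k, _, h1⟩
      · exact absurd h1 ha
      · rw [eval_sub, eval_X, eval_C, sub_eq_zero] at h1
        refine ⟨k, ?_, h1.symm⟩
        rw [Finset.mem_val, Finset.mem_filter]
        refine ⟨Finset.mem_univ _, ?_⟩
        rw [IsRoot, eval_map_algebraMap, h1] at hx
        exact (minpoly.eq_of_irreducible_of_monic (hirr j) hx (hmon j)).symm
    · rintro ⟨k, hk, rfl⟩
      rw [Finset.mem_val, Finset.mem_filter] at hk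
      rw [IsRoot, eval_map_algebraMap, ← hk.2, minpoly.aeval]
  have hsp : ∀ j, ((minpoly K (α j)).map (algebraMap K L)).Splits := fun j =>
    hfs.of_dvd hfm0 (map_dvd (mapRingHom _) (hdvd j))
  have hprod : ∀ j, (minpoly K (α j)).map (algebraMap K L) =
      ∏ k ∈ Finset.univ.filter (fun k => minpoly K (α k) = minpoly K (α j)), (X - C (α k)) := by
    intro j
    rw [(hsp j).eq_prod_roots_of_monic ((hmon j).map _), hkey j, Multiset.map_map]
    rfl
  refine ⟨fun j => minpoly K (α j), fun j => ⟨hirr j, hdvd j⟩, fun j => ?_, fun J hJ => ?_⟩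
  · show (Finset.univ.filter fun k => minpoly K (α k) = minpoly K (α j)).card = _
    have h1 : (minpoly K (α j)).natDegree = ((minpoly K (α j)).map (algebraMap K L)).natDegree :=
      (natDegree_map _).symm
    rw [h1, (hsp j).natDegree_eq_card_roots, hkey j, Multiset.card_map]
    rfl
  · have hJ' : ∀ p ∈ J, ∃ j, minpoly K (α j) = p := by
      intro p hp
      have := hJ hp
      rw [Finset.mem_image] at this
      obtain ⟨j, _, h⟩ := this
      exact ⟨j, h⟩
    refine ⟨?_, ?_, ?_⟩
    · refine monic_prod_of_monic _ _ fun p hp => ?_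
      obtain ⟨j, rfl⟩ := hJ' p hp
      exact hmon j
    · show (∏ p ∈ J, p).map (algebraMap K L) =
        ∏ j ∈ Finset.univ.filter (fun j => minpoly K (α j) ∈ J), (X - C (α j))
      rw [Polynomial.map_prod, ← Finset.prod_fiberwise_of_maps_to (t := J)
        (g := fun j => minpoly K (α j)) (s := Finset.univ.filter (fun j => minpoly K (α j) ∈ J))
        (fun j hj => (Finset.mem_filter.1 hj).2)]
      refine Finset.prod_congr rfl fun p hp => ?_
      obtain ⟨j, rfl⟩ := hJ' p hp
      rw [hprod j]
      refine Finset.prod_congr ?_ fun _ _ => rfl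
      ext k
      simp only [Finset.mem_filter, Finset.mem_univ, true_and]
      constructor
      · intro h
        exact ⟨by rw [h]; exact hp, h⟩
      · exact fun h => h.2
    · intro e he
      refine ⟨FAC_nfac J (fun p hp => ?_) e he, ?_⟩
      · obtain ⟨j, rfl⟩ := hJ' p hp
        exact hirr j
      · intro p hp hpd
        have hpp : Prime p := hp.prime
        rcases hpp.dvd_or_dvd hpd with h | h
        · exact absurd (isUnit_of_dvd_unit h (isUnit_C.2 he.isUnit)) hp.not_isUnit
        · obtain ⟨q, hq, hpq⟩ := hpp.exists_mem_finset_dvd h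
          obtain ⟨j, rfl⟩ := hJ' q hq
          exact hpq.trans (hdvd j)

end Pool.Agent.Lib.MP_ca2859_nt.FF
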