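import Pool.Agent.Lib.MP_ca2859_nt.FF.Stm

/-!
# LOC6: good reduction of the partial curve for a suitable parity of the twist
-/

open Polynomial WithZero IsDedekindDomain NumberField
open Pool.Agent.Lib.MP_ca2859_nt Pool.Agent.Lib.MP_ca2859_nt.GR

namespace Pool.Agent.Lib.MP_ca2859_nt.FF

/-- the valuation of the discriminant of a split polynomial whose roots are as far apart as
possible -/
private theorem LOC6_disc {L : Type*} [Field L] {w : Valuation L ℤᵐ⁰} {n : ℕ} (hn : 2 ≤ n)
    (b : L) (hb : b ≠ 0) (s : Fin n → L)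
    (hd : ∀ i j, i ≠ j → w (s i - s j) = max 1 (w (s i)) * max 1 (w (s j))) :
    w (C b * ∏ j, (X - C (s j))).discr = (w b * ∏ j, max 1 (w (s j))) ^ (2 * n - 2) := by
  classical
  obtain ⟨ε, hε⟩ := discr_split (by omega : 1 ≤ n) b hb s
  have hwε : ∀ x : L, w (((ε : ℤ) : L) * x) = w x := by
    intro x
    rcases Int.units_eq_one_or ε with h | h <;> simp [h, Valuation.map_neg]
  rw [hε, hwε, map_mul, map_pow, map_prod, mul_pow,
    ← prod_erase_pair hn (fun j => max 1 (w (s j)))]
  congr 1
  apply Finset.prod_congr rfl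
  intro i _
  rw [map_prod]
  apply Finset.prod_congr rfl
  intro j hj
  exact hd i j (Finset.ne_of_mem_erase hj).symm

/-- the maximum of the coefficients of a split polynomial (Gauss) -/
private theorem LOC6_gauss {L : Type*} [Field L] {w : Valuation L ℤᵐ⁰} {n : ℕ} (b : L)
    (s : Fin n → L) :
    (∀ i, w ((C b * ∏ j, (X - C (s j))).coeff i) ≤ w b * ∏ j, max 1 (w (s j))) ∧
    ∃ i, w ((C b * ∏ j, (X - C (s j))).coeff i) = w b * ∏ j, max 1 (w (s j)) := by
  classical
  have hle : CB w (w b * ∏ j, max 1 (w (s j))) (C b * ∏ j, (X - C (s j))) := by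
    refine CB.mul (CB_C le_rfl) ?_
    have h1 : ∀ t : Finset (Fin n),
        CB w (∏ j ∈ t, max 1 (w (s j))) (∏ j ∈ t, (X - C (s j))) := by
      intro t
      induction t using Finset.induction_on with
      | empty => simpa using CB_one
      | insert j t hj ih =>
        rw [Finset.prod_insert hj, Finset.prod_insert hj]
        refine CB.mul ?_ ih
        exact (CB_X.mono (le_max_left _ _)).sub (CB_C (le_max_right _ _))
    exact h1 Finset.univ
  refine ⟨hle, ?_⟩
  set F := C b * ∏ j, (X - C (s j)) with hF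
  obtain ⟨i, _, hi⟩ := Finset.exists_max_image (Finset.range (F.natDegree + 1))
    (fun i => w (F.coeff i)) ⟨0, by simp⟩
  refine ⟨i, le_antisymm (hle i) ?_⟩
  have hall : ∀ k, w (F.coeff k) ≤ w (F.coeff i) := by
    intro k
    by_cases hk : k ∈ Finset.range (F.natDegree + 1)
    · exact hi k hk
    · rw [coeff_eq_zero_of_natDegree_lt (by rw [Finset.mem_range] at hk; omega), map_zero]
      exact zero_le
  have h1 := gauss_prod (w := w) Finset.univ s (w (F.coeff i)) (C b) (by
    intro k
    rw [mul_comm]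
    exact hall k) 0
  rwa [coeff_C_zero] at h1

/-- the discriminant commutes with field extensions, up to sign -/
private theorem LOC6_discr_map {K L : Type*} [Field K] [Field L] [CharZero K] [CharZero L]
    (φ : K →+* L) (w : Valuation L ℤᵐ⁰) (n : ℕ) (hn : 2 ≤ n) (P : K[X]) (hP : P.natDegree = n) :
    w (φ P.discr) = w (P.map φ).discr := by
  obtain ⟨ε, hε⟩ := RR_eq_discr_of_natDegree_eq n hn P hP
  obtain ⟨ε', hε'⟩ := RR_eq_discr_of_natDegree_eq n hn (P.map φ) (by rw [natDegree_map]; exact hP)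
  have h := RR_map (n := n) φ P
  have hn0 : w ((n : L) ^ (n - 2)) ≠ 0 := by
    rw [Valuation.ne_zero_iff]
    exact pow_ne_zero _ (by exact_mod_cast (by omega : n ≠ 0))
  have h1 : w (RR n (P.map φ)) = w ((n : L) ^ (n - 2)) * w (P.map φ).discr := by
    rw [hε', w_unit, map_mul]
  have h2 : w (RR n (P.map φ)) = w ((n : L) ^ (n - 2)) * w (φ P.discr) := by
    rw [h, hε]
    rcases Int.units_eq_one_or ε with h | h <;> simp [h, Valuation.map_neg]
  rw [h1] at h2
  exact (mul_left_cancel₀ hn0 h2).symm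

theorem piece_LOC6 : S_LOC6 := by
  classical
  intro K _ _ L _ _ _ g hg f hf v w hlies hgood h2 hn a ha α hinj hfα T q g' hg' hT hqT
  have := hlies
  obtain ⟨c₁, α₀, ρ, hfar⟩ := good_far g hg f hf v w hgood h2 hn a ha α hfα
  set E := Ideal.ramificationIdx' v.asIdeal w.asIdeal with hE
  have hE0 : E ≠ 0 := Ideal.IsDedekindDomain.ramificationIdx'_ne_zero_of_liesOver w.asIdeal v.ne_bot
  have hvw : ∀ x : K, w.valuation L (algebraMap K L x) = v.valuation K x ^ E := fun x =>
    (HeightOneSpectrum.valuation_liesOver L v w x).symm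
  have hρ' : algebraMap K L ρ ≠ 0 := hfar.r0
  have hρ : ρ ≠ 0 := by
    rintro rfl
    exact hρ' (map_zero _)
  set N := 2 * g' + 2 with hN
  -- enumeration of the roots
  set t : Fin N → Fin (2 * g + 2) := fun k => T.orderEmbOfFin hT k with ht
  have htinj : Function.Injective t := (T.orderEmbOfFin hT).injective
  have hprod : ∀ F : Fin (2 * g + 2) → L[X], ∏ j ∈ T, F j = ∏ k, F (t k) := by
    intro F
    conv_lhs => rw [← Finset.map_orderEmbOfFin_univ T hT]
    rw [Finset.prod_map]
    rfl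
  set s : Fin N → L := fun k => (α (t k) - algebraMap K L α₀) / algebraMap K L ρ with hs
  have hdist : ∀ i j, i ≠ j → w.valuation L (s i - s j) =
      max 1 (w.valuation L (s i)) * max 1 (w.valuation L (s j)) := fun i j hij =>
    hfar.far (t i) (t j) (fun h => hij (htinj h))
  set q₁ := q.comp (C ρ * X + C α₀) with hq₁
  have hsplit : ∀ b : K, (C b * q₁).map (algebraMap K L) =
      C (algebraMap K L b * 1 * algebraMap K L ρ ^ N) * ∏ j, (X - C (s j)) := by
    intro b
    have h1 := comp_split (algebraMap K L b) 1 (algebraMap K L ρ) (algebraMap K L α₀) hρ'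
      (fun k => α (t k))
    rw [← h1, hq₁, Polynomial.map_mul, Polynomial.map_C, Polynomial.map_comp, hqT,
      hprod (fun j => X - C (α j)), C_1, one_mul]
    simp only [Polynomial.map_add, Polynomial.map_mul, Polynomial.map_C, Polynomial.map_X]
  set B : ℤᵐ⁰ := w.valuation L (algebraMap K L ρ ^ N) * ∏ j, max 1 (w.valuation L (s j)) with hB
  have hB0 : B ≠ 0 := by
    refine mul_ne_zero ((Valuation.ne_zero_iff _).2 (pow_ne_zero _ hρ')) ?_
    rw [Finset.prod_ne_zero_iff]
    intro j _
    exact umax_ne_zero _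
  have hq₁map : q₁.map (algebraMap K L) = C (algebraMap K L ρ ^ N) * ∏ j, (X - C (s j)) := by
    have h1 := hsplit 1
    rwa [C_1, one_mul, map_one, one_mul, one_mul] at h1
  obtain ⟨hle, i₀, hi₀⟩ := LOC6_gauss (w := w.valuation L) (algebraMap K L ρ ^ N) s
  rw [← hq₁map] at hle hi₀
  set κ := q₁.coeff i₀ with hκ
  have hκB : v.valuation K κ ^ E = B := by
    rw [← hvw, hκ, ← coeff_map]; exact hi₀
  have hκ0 : κ ≠ 0 := by
    intro h
    rw [h, map_zero, zero_pow hE0] at hκB
    exact hB0 hκB.symm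
  have hqle : ∀ i, v.valuation K (q₁.coeff i) ^ E ≤ B := by
    intro i
    rw [← hvw, ← coeff_map]; exact hle i
  refine ⟨-ord (v.valuation K) κ, fun e he ⟨k, hk⟩ => ?_⟩
  obtain ⟨π, hπ⟩ := v.valuation_exists_uniformizer K
  have hπ0 : π ≠ 0 := by
    rintro rfl
    rw [map_zero] at hπ
    exact exp_ne_zero hπ.symm
  have hordπ : ord (v.valuation K) π = 1 := by rw [ord, hπ, log_exp]; ring
  set c := π ^ (-k) with hc
  have hc0 : c ≠ 0 := zpow_ne_zero _ hπ0
  set b := c ^ 2 * e with hb
  have hb0 : b ≠ 0 := mul_ne_zero (pow_ne_zero _ hc0) he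
  have hbκ0 : b * κ ≠ 0 := mul_ne_zero hb0 hκ0
  have hordb : ord (v.valuation K) (b * κ) = 0 := by
    rw [ord_mul hb0 hκ0, hb, ord_mul (pow_ne_zero _ hc0) he, ord_pow, hc, ord_zpow, hordπ, hk]
    push_cast
    ring
  have hbκ : v.valuation K (b * κ) = 1 := by
    rw [w_eq_exp hbκ0, hordb]; simp
  have hbB : v.valuation K b ^ E * B = 1 := by
    rw [← hκB, ← mul_pow, ← map_mul, hbκ, one_pow]
  set P := C b * q₁ with hP
  have hb' : algebraMap K L b * 1 * algebraMap K L ρ ^ N ≠ 0 := by
    refine mul_ne_zero (mul_ne_zero ?_ one_ne_zero) (pow_ne_zero _ hρ')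
    rw [Ne, map_eq_zero]; exact hb0
  have hPd : P.natDegree = N := by
    rw [← natDegree_map (algebraMap K L), hP, hsplit]
    exact natDegree_split _ hb' _
  have hPint : ∀ i, v.valuation K (P.coeff i) ≤ 1 := by
    intro i
    have h1 : v.valuation K (P.coeff i) ^ E ≤ 1 := by
      rw [hP, coeff_C_mul, map_mul, mul_pow, ← hbB]
      exact mul_le_mul' le_rfl (hqle i)
    exact (pow_le_one_iff hE0).1 h1
  have hdisc : v.valuation K P.discr = 1 := by
    have h1 := LOC6_discr_map (algebraMap K L) (w.valuation L) N (by omega) P hPd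
    have h4 : w.valuation L (algebraMap K L b * 1 * algebraMap K L ρ ^ N) =
        v.valuation K b ^ E * w.valuation L (algebraMap K L ρ ^ N) := by
      rw [mul_one, map_mul, hvw]
    rw [hvw, hsplit b, LOC6_disc (by omega : 2 ≤ N) _ hb' s hdist, h4] at h1
    have h3 : v.valuation K b ^ E * w.valuation L (algebraMap K L ρ ^ N) *
        ∏ j, max 1 (w.valuation L (s j)) = 1 := by
      rw [mul_assoc]; exact hbB
    rw [h3, one_pow] at h1
    rcases (pow_eq_one_iff (M := ℤᵐ⁰)).1 h1 with h5 | h5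
    · exact h5
    · exact absurd h5 hE0
  have hPD : eqDisc g' P = 2 ^ (4 * g') * P.discr := by
    rw [eqDisc, if_pos hPd]
  have hfin : minDiscExp (v.valuation K) g' (C e * q) ≤ 0 := by
    refine minDiscExp_le (v.valuation K) g' (C e * q) 0
      ⟨P, 0, ⟨hPint, fun i => by simp, by omega, by simp, ?_, ?_⟩, ?_⟩
    · rw [f0_zero]; right; exact hPd
    · rw [f0_zero]
      refine ⟨ρ, α₀, 0, 1, c, by simpa using hρ, hc0, fun x _ => ?_⟩
      rw [hP, hb, hq₁]
      simp
      ring
    · rw [f0_zero, hPD, map_mul, map_pow, h2, hdisc]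
      simp
  exact Nat.le_zero.1 hfin

end Pool.Agent.Lib.MP_ca2859_nt.FF
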